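import Pool.Agent.K3h56.Nic.Ker

/-!
# Averages of `kk` with Gamma kernels
-/

set_option autoImplicit false

namespace Pool.Agent.K3h56.Nic

open Filter Topology MeasureTheory
open Pool.Agent.W263.BSD (LInt lap lapC)
open Pool.Agent.K3h81.RB

noncomputable section

/-- the average of `kk` -/
def av (x : ℝ) (j : ℕ) : ℝ := ∫ u in Set.Ioi 0, kk u * kap x j u

/-- the average of `|kk|` -/
def avabs (x : ℝ) (j : ℕ) : ℝ := ∫ u in Set.Ioi 0, |kk u| * kap x j u

lemma kk_kap_int {x : ℝ} (hx : 0 < x) {j : ℕ} (hj : 1 ≤ j) :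
    IntegrableOn (fun u => kk u * kap x j u) (Set.Ioi 0) := by
  have h : IntegrableOn (fun u => u ^ j * kk u * Real.exp (-(x * u))) (Set.Ioi 0) := kk_LInt hj hx
  refine IntegrableOn.congr_fun (f := fun u => x ^ (j + 1) / j.factorial * (u ^ j * kk u * Real.exp (-(x * u))))
    (h.const_mul _) (fun u _ => ?_) measurableSet_Ioi
  simp only [kap]
  ring

lemma abs_kk_kap_int {x : ℝ} (hx : 0 < x) {j : ℕ} (hj : 1 ≤ j) :
    IntegrableOn (fun u => |kk u| * kap x j u) (Set.Ioi 0) := by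
  refine IntegrableOn.congr_fun (f := fun u => |kk u * kap x j u|) (kk_kap_int hx hj).abs
    (fun u hu => ?_) measurableSet_Ioi
  show |kk u * kap x j u| = _
  rw [abs_mul, abs_of_nonneg (kap_nonneg hx j (le_of_lt hu))]

lemma BM_real {x : ℝ} (hx : 0 < x) (j : ℕ) :
    BM j (x : ℂ) = ((j.factorial / x ^ (j + 1) * av x j : ℝ) : ℂ) := by
  unfold BM
  rw [Pool.Agent.W263.BSD.lapC_ofReal]
  congr 1
  unfold Pool.Agent.W263.BSD.lap av
  rw [← integral_const_mul]
  refine setIntegral_congr_fun measurableSet_Ioi fun u _ => ?_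
  simp only [kap]
  have : (j.factorial : ℝ) ≠ 0 := by positivity
  field_simp

lemma BM_le {z : ℂ} (hz : 0 < z.re) {j : ℕ} (_hj : 1 ≤ j) :
    ‖BM j z‖ ≤ j.factorial / z.re ^ (j + 1) * avabs z.re j := by
  unfold BM Pool.Agent.W263.BSD.lapC avabs
  rw [← integral_const_mul]
  refine (norm_integral_le_integral_norm _).trans (le_of_eq ?_)
  refine setIntegral_congr_fun measurableSet_Ioi fun u hu => ?_
  have hu0 : 0 < u := hu
  simp only [kap]
  rw [norm_mul, Complex.norm_exp, Complex.norm_real, Real.norm_eq_abs, abs_mul,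
    abs_of_nonneg (show 0 ≤ u ^ j by positivity)]
  have e : (-(z * (u : ℂ))).re = -(z.re * u) := by simp
  rw [e]
  have : (j.factorial : ℝ) ≠ 0 := by positivity
  field_simp

lemma kap_pred {x : ℝ} {j : ℕ} (hj : 1 ≤ j) (u : ℝ) : kap x j u = x * u / j * kap x (j - 1) u := by
  obtain ⟨k, rfl⟩ : ∃ k, j = k + 1 := ⟨j - 1, by omega⟩
  rw [kap_succ, Nat.add_sub_cancel]
  push_cast
  rfl

lemma abs_kk_kap_le : ∃ C : ℝ, 0 < C ∧ ∀ x : ℝ, 0 < x → ∀ j : ℕ, 1 ≤ j → ∀ u : ℝ, 0 < u →
    |kk u| * kap x j u ≤ C * x / j * kap x (j - 1) u := by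
  obtain ⟨C, hC, h⟩ := kk_bound
  refine ⟨C, hC, fun x hx j hj u hu => ?_⟩
  rw [kap_pred hj]
  have h1 := h u hu
  have hk := kap_nonneg hx (j - 1) hu.le
  have hj0 : (0 : ℝ) < j := by exact_mod_cast hj
  calc |kk u| * (x * u / j * kap x (j - 1) u) ≤ C / u * (x * u / j * kap x (j - 1) u) :=
        mul_le_mul_of_nonneg_right h1 (by positivity)
    _ = _ := by field_simp

lemma kap_one {x : ℝ} (hx : 0 < x) (j : ℕ) : ∫ u in Set.Ioi 0, kap x j u = 1 := by
  have h := (kap_tilt hx (s := 0) hx j).2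
  simp only [zero_mul, Real.exp_zero, one_mul, sub_zero, div_self hx.ne', one_pow] at h
  exact h

lemma av_small : ∃ C : ℝ, 0 < C ∧ ∀ x : ℝ, 0 < x → ∀ j : ℕ, 1 ≤ j → |av x j| ≤ C * x / j := by
  obtain ⟨C, hC, h⟩ := abs_kk_kap_le
  refine ⟨C, hC, fun x hx j hj => ?_⟩
  unfold av
  calc |∫ u in Set.Ioi 0, kk u * kap x j u| ≤ ∫ u in Set.Ioi 0, |kk u * kap x j u| :=
        abs_integral_le_integral_abs
    _ ≤ ∫ u in Set.Ioi 0, C * x / j * kap x (j - 1) u := by
        refine setIntegral_mono_on (kk_kap_int hx hj).abs ((kap_int hx _).const_mul _) measurableSet_Ioi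
          fun u hu => ?_
        rw [abs_mul, abs_of_nonneg (kap_nonneg hx j (le_of_lt hu))]
        exact h x hx j hj u hu
    _ = C * x / j := by rw [integral_const_mul, kap_one hx, mul_one]

lemma av_diff {x R M : ℝ} (hx : 0 < x) (hR : x < R) (hM : 0 ≤ M)
    (hI : ∀ n : ℕ, ‖IM n x‖ ≤ n.factorial * M / R ^ n) (n : ℕ) :
    |av x (n + 1) - av x (n + 2)| ≤ M * (R ^ 2 + R) * (x / R) ^ (n + 2) := by
  have hR0 : 0 < R := hx.trans hR
  have hs := star n (z := (x : ℂ)) (by simpa using hx)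
  rw [BM_real hx, BM_real hx] at hs
  have hf1 : ((n + 1).factorial : ℝ) ≠ 0 := by positivity
  have e : ((n : ℂ) + 2) * (((n + 1).factorial / x ^ (n + 1 + 1) * av x (n + 1) : ℝ) : ℂ) -
      (x : ℂ) * (((n + 2).factorial / x ^ (n + 2 + 1) * av x (n + 2) : ℝ) : ℂ) =
      (((n + 2).factorial / x ^ (n + 2) * (av x (n + 1) - av x (n + 2)) : ℝ) : ℂ) := by
    have hf : ((n + 2).factorial : ℝ) = ((n : ℝ) + 2) * (n + 1).factorial := by
      rw [Nat.factorial_succ (n + 1)]
      push_cast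
      ring
    have e2 : ((n : ℝ) + 2) * ((n + 1).factorial / x ^ (n + 1 + 1) * av x (n + 1)) -
        x * ((n + 2).factorial / x ^ (n + 2 + 1) * av x (n + 2)) =
        (n + 2).factorial / x ^ (n + 2) * (av x (n + 1) - av x (n + 2)) := by
      rw [hf]
      field_simp
      ring
    have e3 := congrArg (fun t : ℝ => (t : ℂ)) e2
    rw [← e3]
    push_cast
    ring
  rw [e] at hs
  have h1 : ‖IM n x + IM (n + 1) x‖ ≤ n.factorial * M / R ^ n + (n + 1).factorial * M / R ^ (n + 1) :=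
    (norm_add_le _ _).trans (add_le_add (hI n) (hI (n + 1)))
  rw [hs, Complex.norm_real, Real.norm_eq_abs, abs_mul, abs_of_pos (by positivity)] at h1
  have h2 : (n.factorial : ℝ) ≤ (n + 2).factorial := by
    exact_mod_cast Nat.factorial_le (by omega)
  have h3 : ((n + 1).factorial : ℝ) ≤ (n + 2).factorial := by
    exact_mod_cast Nat.factorial_le (by omega)
  have h4 : (n.factorial : ℝ) * M / R ^ n + (n + 1).factorial * M / R ^ (n + 1) ≤
      (n + 2).factorial * (M / R ^ n + M / R ^ (n + 1)) := by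
    calc _ = n.factorial * (M / R ^ n) + (n + 1).factorial * (M / R ^ (n + 1)) := by ring
      _ ≤ (n + 2).factorial * (M / R ^ n) + (n + 2).factorial * (M / R ^ (n + 1)) := by gcongr
      _ = _ := by ring
  have h5 := h1.trans h4
  have hf0 : (0 : ℝ) < (n + 2).factorial := by positivity
  have h6 : |av x (n + 1) - av x (n + 2)| ≤ x ^ (n + 2) * (M / R ^ n + M / R ^ (n + 1)) := by
    have h7 : (n + 2).factorial * (|av x (n + 1) - av x (n + 2)| / x ^ (n + 2)) ≤
        (n + 2).factorial * (M / R ^ n + M / R ^ (n + 1)) := by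
      calc _ = (n + 2).factorial / x ^ (n + 2) * |av x (n + 1) - av x (n + 2)| := by ring
        _ ≤ _ := h5
    have h8 := le_of_mul_le_mul_left h7 hf0
    rw [div_le_iff₀ (by positivity)] at h8
    linarith
  refine h6.trans (le_of_eq ?_)
  rw [div_pow]
  field_simp
  ring

/-- **Averages of `kk` are small.** -/
theorem av_bound {x R : ℝ} (hx : 0 < x) (hR : x < R) (hU : Metric.closedBall (x : ℂ) R ⊆ UU) :
    ∃ C : ℝ, 0 ≤ C ∧ ∀ n : ℕ, 1 ≤ n → |av x n| ≤ C * (x / R) ^ n := by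
  have hR0 : 0 < R := hx.trans hR
  obtain ⟨M, hM, hI⟩ := IM_le (z := (x : ℂ)) (by simpa using hx) hR0 hU
  obtain ⟨C, hC, hs⟩ := av_small
  set q : ℝ := x / R with hq
  have hq0 : 0 < q := by positivity
  have hq1 : q < 1 := by rw [hq, div_lt_one hR0]; exact hR
  set K : ℝ := M * (R ^ 2 + R) with hK
  have hK0 : 0 ≤ K := by positivity
  -- monotonicity
  have hmono : ∀ n : ℕ, 1 ≤ n → |av x n| - K * q ^ (n + 1) / (1 - q) ≤
      |av x (n + 1)| - K * q ^ (n + 1 + 1) / (1 - q) := by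
    intro n hn
    obtain ⟨k, rfl⟩ : ∃ k, n = k + 1 := ⟨n - 1, by omega⟩
    have h1 := av_diff hx hR hM hI k
    have h2 := abs_sub_abs_le_abs_sub (av x (k + 1)) (av x (k + 2))
    have h3 : K * q ^ (k + 1 + 1) / (1 - q) - K * q ^ (k + 1 + 1 + 1) / (1 - q) = K * q ^ (k + 2) := by
      have : 1 - q ≠ 0 := by linarith
      field_simp
      ring
    have h4 : |av x (k + 1 + 1)| = |av x (k + 2)| := rfl
    rw [h4]
    linarith
  have hall : ∀ n : ℕ, 1 ≤ n → ∀ m : ℕ, |av x n| - K * q ^ (n + 1) / (1 - q) ≤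
      |av x (n + m)| - K * q ^ (n + m + 1) / (1 - q) := by
    intro n hn m
    induction m with
    | zero => simp
    | succ m ih => exact ih.trans (hmono (n + m) (by omega))
  refine ⟨K * q / (1 - q), div_nonneg (by positivity) (by linarith), fun n hn => ?_⟩
  have hlim : ∀ m : ℕ, |av x n| - K * q ^ (n + 1) / (1 - q) ≤ C * x / ((m : ℝ) + 1) := by
    intro m
    refine (hall n hn (m + 1)).trans ?_
    have h1 := hs x hx (n + (m + 1)) (by omega)
    have h2 : 0 ≤ K * q ^ (n + (m + 1) + 1) / (1 - q) := div_nonneg (by positivity) (by linarith)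
    have h3 : C * x / ((n + (m + 1) : ℕ) : ℝ) ≤ C * x / ((m : ℝ) + 1) := by
      refine div_le_div_of_nonneg_left (by positivity) (by positivity) ?_
      push_cast
      have : (0 : ℝ) ≤ n := Nat.cast_nonneg n
      linarith
    linarith
  have h0 : |av x n| - K * q ^ (n + 1) / (1 - q) ≤ 0 := by
    have h1 : Tendsto (fun m : ℕ => C * x / ((m : ℝ) + 1)) atTop (𝓝 0) := by
      have := tendsto_one_div_add_atTop_nhds_zero_nat.const_mul (C * x)
      rw [mul_zero] at this
      refine this.congr fun m => ?_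
      ring
    exact ge_of_tendsto h1 (Eventually.of_forall hlim)
  have h1 : K * q / (1 - q) * q ^ n = K * q ^ (n + 1) / (1 - q) := by ring
  rw [h1]
  linarith

/-- **The average of `|kk|`, if `kk` is almost nonnegative on the window.** -/
theorem avabs_bound {x a A d : ℝ} (hx : 0 < x) (ha : 0 < a) (hA : 0 ≤ A)
    (hd0 : 0 < d) (hd : d ≤ 1) : ∃ C : ℝ, 0 ≤ C ∧ ∀ n : ℕ,
    (∀ u ∈ WW x d n, -(A * Real.exp (-(a * u))) ≤ kk u) → ∀ j : ℕ, n + 1 ≤ j → j ≤ n + 2 →
    avabs x j ≤ |av x j| + C * ((x / (x + a)) ^ n + Real.exp (-(d ^ 2 / 8)) ^ n) := by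
  obtain ⟨C0, hC0, h0⟩ := abs_kk_kap_le
  refine ⟨2 * A + 18 * (C0 * x), by positivity, fun n hw j hj1 hj2 => ?_⟩
  have hj : 1 ≤ j := by omega
  have hj0 : (1 : ℝ) ≤ j := by exact_mod_cast hj
  obtain ⟨i1, v1⟩ := kap_tilt (x := x) (s := -a) hx (by linarith) j
  have i2 : IntegrableOn (fun u => (WW x d n)ᶜ.indicator (kap x (j - 1)) u) (Set.Ioi 0) :=
    (kap_int hx (j - 1)).indicator (WW_meas x d n).compl
  have v2 := kap_tail hx hd0 hd (n := n) (j := j - 1) (by omega) (by omega)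
  have hpt : ∀ u ∈ Set.Ioi (0 : ℝ), |kk u| * kap x j u ≤ kk u * kap x j u +
      (2 * A * (Real.exp (-a * u) * kap x j u) +
      2 * (C0 * x / j) * (WW x d n)ᶜ.indicator (kap x (j - 1)) u) := by
    intro u hu
    have hu0 : 0 < u := hu
    have hk := kap_nonneg hx j hu0.le
    have hk1 := kap_nonneg hx (j - 1) hu0.le
    have p1 : 0 ≤ 2 * A * (Real.exp (-a * u) * kap x j u) := by positivity
    by_cases h : u ∈ WW x d n
    · rw [Set.indicator_of_notMem (by simpa using h), mul_zero, add_zero]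
      have h1 := hw u h
      have e : Real.exp (-(a * u)) = Real.exp (-a * u) := by congr 1; ring
      rw [e] at h1
      have h2 : |kk u| ≤ kk u + 2 * (A * Real.exp (-a * u)) := by
        have h3 : 0 ≤ A * Real.exp (-a * u) := by positivity
        rw [abs_le]
        constructor <;> linarith
      calc |kk u| * kap x j u ≤ (kk u + 2 * (A * Real.exp (-a * u))) * kap x j u :=
            mul_le_mul_of_nonneg_right h2 hk
        _ = _ := by ring
    · rw [Set.indicator_of_mem (by simpa using h)]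
      have h1 := h0 x hx j hj u hu0
      have h2 : -(|kk u| * kap x j u) ≤ kk u * kap x j u := by
        rw [← neg_mul]
        exact mul_le_mul_of_nonneg_right (neg_abs_le _) hk
      linarith
  have i12 : IntegrableOn (fun u => 2 * A * (Real.exp (-a * u) * kap x j u) +
      2 * (C0 * x / j) * (WW x d n)ᶜ.indicator (kap x (j - 1)) u) (Set.Ioi 0) :=
    (i1.const_mul (2 * A)).add (i2.const_mul (2 * (C0 * x / j)))
  have i123 : IntegrableOn (fun u => kk u * kap x j u + (2 * A * (Real.exp (-a * u) * kap x j u) +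
      2 * (C0 * x / j) * (WW x d n)ᶜ.indicator (kap x (j - 1)) u)) (Set.Ioi 0) := (kk_kap_int hx hj).add i12
  have h1 := setIntegral_mono_on (abs_kk_kap_int hx hj) i123 measurableSet_Ioi hpt
  have h2 : ∫ u in Set.Ioi (0 : ℝ), (kk u * kap x j u +
      (2 * A * (Real.exp (-a * u) * kap x j u) +
      2 * (C0 * x / j) * (WW x d n)ᶜ.indicator (kap x (j - 1)) u)) =
      av x j + (2 * A * (x / (x - -a)) ^ (j + 1) +
      2 * (C0 * x / j) * ∫ u in Set.Ioi 0, (WW x d n)ᶜ.indicator (kap x (j - 1)) u) := by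
    rw [integral_add (kk_kap_int hx hj) i12,
      integral_add (i1.const_mul (2 * A)) (i2.const_mul (2 * (C0 * x / j))), integral_const_mul,
      integral_const_mul, v1]
    rfl
  have h3 : avabs x j ≤ av x j + (2 * A * (x / (x - -a)) ^ (j + 1) +
      2 * (C0 * x / j) * ∫ u in Set.Ioi 0, (WW x d n)ᶜ.indicator (kap x (j - 1)) u) := by
    rw [← h2]
    exact h1
  refine h3.trans ?_
  have hxa : x / (x - -a) = x / (x + a) := by rw [sub_neg_eq_add]
  have hxa1 : x / (x + a) ≤ 1 := by rw [div_le_one (by positivity)]; linarith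
  have hxa0 : 0 ≤ x / (x + a) := by positivity
  have h4 : (x / (x + a)) ^ (j + 1) ≤ (x / (x + a)) ^ n := pow_le_pow_of_le_one hxa0 hxa1 (by omega)
  have h5 : C0 * x / j ≤ C0 * x := div_le_self (by positivity) hj0
  have h6 : Real.exp (-(n * (d ^ 2 / 8))) = Real.exp (-(d ^ 2 / 8)) ^ n := by
    rw [← Real.exp_nat_mul]; congr 1; ring
  rw [h6] at v2
  have v20 : 0 ≤ ∫ u in Set.Ioi 0, (WW x d n)ᶜ.indicator (kap x (j - 1)) u := by
    refine setIntegral_nonneg measurableSet_Ioi fun u hu => ?_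
    exact Set.indicator_apply_nonneg fun _ => kap_nonneg hx (j - 1) (le_of_lt hu)
  have h7 : 2 * (C0 * x / j) * ∫ u in Set.Ioi 0, (WW x d n)ᶜ.indicator (kap x (j - 1)) u ≤
      2 * (C0 * x) * (9 * Real.exp (-(d ^ 2 / 8)) ^ n) := by
    refine mul_le_mul (by linarith) v2 v20 (by positivity)
  have h8 : 2 * A * (x / (x + a)) ^ (j + 1) ≤ 2 * A * (x / (x + a)) ^ n :=
    mul_le_mul_of_nonneg_left h4 (by positivity)
  have h9 := le_abs_self (av x j)
  have h10 : 0 ≤ (x / (x + a)) ^ n := by positivity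
  have h11 : 0 ≤ Real.exp (-(d ^ 2 / 8)) ^ n := by positivity
  rw [hxa]
  have h12 : 0 ≤ 18 * (C0 * x) * (x / (x + a)) ^ n := by positivity
  have h13 : 0 ≤ 2 * A * Real.exp (-(d ^ 2 / 8)) ^ n := by positivity
  nlinarith

end

end Pool.Agent.K3h56.Nic
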