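import Pool.Agent.K3h56.Nic.Core
import Pool.Agent.K3h81.RB.Lim

/-!
# The choice of the point with a single nearest zero
-/

set_option autoImplicit false

namespace Pool.Agent.K3h56.Nic

open Filter Topology MeasureTheory
open Pool.Agent.W263.BSD (LInt lap lapC)
open Pool.Agent.W66 (Z1 DD)
open Pool.Agent.K3h81.RB

noncomputable section

lemma Z1_zero_ne : Z1 0 ≠ 0 := by
  rw [Pool.Agent.W66.Z1_eq (by norm_num), riemannZeta_zero]
  norm_num

/-- there are no zeros near the real axis -/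
lemma gap : ∃ g : ℝ, 0 < g ∧ ∀ s : ℂ, Z1 s = 0 → 0 ≤ s.re → g ≤ |s.im| := by
  set K : Set ℂ := {s | Z1 s = 0 ∧ 0 ≤ s.re} ∩ Metric.closedBall 0 3 with hK
  have hc : IsClosed {s : ℂ | Z1 s = 0 ∧ 0 ≤ s.re} :=
    (isClosed_eq Pool.Agent.W66.Z1_diff.continuous continuous_const).inter
      (isClosed_le continuous_const Complex.continuous_re)
  have hKc : IsCompact K := (isCompact_closedBall (0 : ℂ) 3).inter_left hc
  have hpos : ∀ s ∈ K, 0 < |s.im| := by
    intro s hs
    rw [abs_pos]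
    intro h0
    have hs1 : Z1 s = 0 := hs.1.1
    have hs2 : 0 ≤ s.re := hs.1.2
    have e : s = (s.re : ℂ) := Complex.ext (by simp) (by simp [h0])
    rcases eq_or_lt_of_le hs2 with h | h
    · rw [e, ← h] at hs1
      exact Z1_zero_ne (by simpa using hs1)
    · rw [e] at hs1
      exact Z1_real_ne h hs1
  have hin : ∀ s : ℂ, Z1 s = 0 → 0 ≤ s.re → |s.im| < 1 → s ∈ K := by
    intro s h1 h2 h3
    refine ⟨⟨h1, h2⟩, ?_⟩
    rw [mem_closedBall_zero_iff]
    have h4 : s.re < 1 := by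
      by_contra h
      exact Pool.Agent.W66.Z1_ne_zero (not_lt.1 h) h1
    have h5 := Complex.norm_le_abs_re_add_abs_im s
    rw [abs_of_nonneg h2] at h5
    linarith
  rcases K.eq_empty_or_nonempty with hE | hE
  · refine ⟨1, one_pos, fun s h1 h2 => ?_⟩
    by_contra h
    have := hin s h1 h2 (not_le.1 h)
    rw [hE] at this
    exact this
  · obtain ⟨s0, hs0, hmin⟩ := hKc.exists_isMinOn hE (f := fun s : ℂ => |s.im|)
      (by fun_prop)
    refine ⟨min 1 |s0.im|, lt_min one_pos (hpos s0 hs0), fun s h1 h2 => ?_⟩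
    by_contra h
    rw [not_le, lt_min_iff] at h
    have h3 := hmin (hin s h1 h2 h.1)
    simp only [Set.mem_ofPred_eq] at h3
    linarith [h.2]

/-- Stewart's identity -/
lemma stewart (z0 w1 w : ℂ) (t : ℝ) : ‖(z0 + t * (w1 - z0)) - w‖ ^ 2 =
    (1 - t) * ‖z0 - w‖ ^ 2 + t * ‖w1 - w‖ ^ 2 - t * (1 - t) * ‖z0 - w1‖ ^ 2 := by
  rw [Complex.sq_norm, Complex.sq_norm, Complex.sq_norm, Complex.sq_norm]
  simp only [Complex.normSq_apply, Complex.add_re, Complex.sub_re, Complex.mul_re, Complex.ofReal_re,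
    Complex.ofReal_im, Complex.add_im, Complex.sub_im, Complex.mul_im, zero_mul, sub_zero, add_zero]
  ring

/-- the zeros are isolated -/
lemma isolated {w1 : ℂ} : ∃ e : ℝ, 0 < e ∧ ∀ w : ℂ, ‖w1 - w‖ < e → w ≠ w1 → Z1 (1 + w) ≠ 0 := by
  rcases (Z1s_diff.analyticAt w1).eventually_eq_zero_or_eventually_ne_zero with h | h
  · exact absurd h (Z1s_not_zero w1)
  · rw [eventually_nhdsWithin_iff, Metric.eventually_nhds_iff] at h
    obtain ⟨e, he, h1⟩ := h
    refine ⟨e, he, fun w hw hne => h1 ?_ hne⟩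
    rwa [dist_comm, dist_eq_norm]

lemma zero_re_le_Th {s : ℂ} (h : Z1 s = 0) : s.re ≤ Th := by
  have h1 : s ≠ 1 := by
    rintro rfl
    rw [Pool.Agent.W66.Z1_one] at h
    exact one_ne_zero h
  rw [Pool.Agent.W66.Z1_eq h1] at h
  rcases mul_eq_zero.1 h with h2 | h2
  · exact absurd (sub_eq_zero.1 h2) h1
  · by_contra hlt
    exact Th_free s (not_le.1 hlt) h2

/-- **`kk` is very negative on every window of Gamma type.** -/
theorem window {b A δ : ℝ} (hb0 : 0 < b) (hb : b < Th) (hA : 0 ≤ A) (hδ0 : 0 < δ) (hδ1 : δ ≤ 1) :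
    ∃ x : ℝ, 0 < x ∧ ∃ n0 : ℕ, ∀ n : ℕ, n0 ≤ n →
      ∃ u ∈ WW x δ n, kk u < -(A * Real.exp (-((1 - b) * u))) := by
  obtain ⟨g, hg, hgap⟩ := gap
  set x0 : ℝ := 9 / δ ^ 2 + 1 with hx0
  have hx01 : 1 ≤ x0 := by
    have : 0 ≤ 9 / δ ^ 2 := by positivity
    linarith
  -- a zero with large real part
  have hlt : max b (Th - g ^ 2 / (2 * x0 + 3)) < Th := by
    refine max_lt hb ?_
    have : 0 < g ^ 2 / (2 * x0 + 3) := by positivity
    linarith
  have hnf := not_free_of_lt hlt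
  unfold Pool.Agent.K3h81.RB.ZFree at hnf
  push Not at hnf
  obtain ⟨ρ, hρ1, hρ0⟩ := hnf
  have hbβ : b < ρ.re := (le_max_left _ _).trans_lt hρ1
  have hβTh : Th - ρ.re < g ^ 2 / (2 * x0 + 3) := by
    have := (le_max_right b (Th - g ^ 2 / (2 * x0 + 3))).trans_lt hρ1
    linarith
  have hρne : ρ ≠ 1 := by
    rintro rfl
    exact riemannZeta_one_ne_zero hρ0
  have hZρ : Z1 ρ = 0 := by rw [Pool.Agent.W66.Z1_eq hρne, hρ0, mul_zero]
  have hβ1 : ρ.re < 1 := by
    by_contra h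
    exact Pool.Agent.W66.Z1_ne_zero (not_lt.1 h) hZρ
  set β := ρ.re with hβ
  have hβ0 : 0 < β := hb0.trans hbβ
  have hβ_le : β ≤ Th := zero_re_le_Th hZρ
  have hTh1 := Th_le
  -- the nearest zero
  set Zs : Set ℂ := {w | Z1 (1 + w) = 0} with hZs
  have hZc : IsClosed Zs := isClosed_eq Z1s_diff.continuous continuous_const
  have hρZ : ρ - 1 ∈ Zs := by
    show Z1 (1 + (ρ - 1)) = 0
    rw [add_sub_cancel]
    exact hZρ
  set z0 : ℂ := ⟨x0, ρ.im⟩ with hz0
  obtain ⟨w1, hw1, hdist⟩ := hZc.exists_infDist_eq_dist ⟨_, hρZ⟩ z0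
  have hw1Z : Z1 (1 + w1) = 0 := hw1
  set d0 : ℝ := ‖z0 - w1‖ with hd0
  have hmin : ∀ w ∈ Zs, d0 ≤ ‖z0 - w‖ := by
    intro w hw
    have h1 := Metric.infDist_le_dist_of_mem (x := z0) hw
    rw [hdist, dist_eq_norm, dist_eq_norm] at h1
    exact h1
  have hd0le : d0 ≤ x0 + 1 - β := by
    refine (hmin _ hρZ).trans (le_of_eq ?_)
    have e : z0 - (ρ - 1) = ((x0 + 1 - β : ℝ) : ℂ) := by
      apply Complex.ext
      · simp only [hz0, Complex.sub_re, Complex.one_re, Complex.ofReal_re]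
        rw [hβ]; ring
      · simp only [hz0, Complex.sub_im, Complex.one_im, Complex.ofReal_im]
        ring
    rw [e, Complex.norm_real, Real.norm_of_nonneg (by linarith)]
  have hre : (1 + w1).re < 1 := by
    by_contra h
    exact Pool.Agent.W66.Z1_ne_zero (not_lt.1 h) hw1Z
  have hw1re : w1.re < 0 := by
    simp only [Complex.add_re, Complex.one_re] at hre
    linarith
  have hd0ge : x0 - w1.re ≤ d0 := by
    have h1 := Complex.abs_re_le_norm (z0 - w1)
    have h2 : (z0 - w1).re = x0 - w1.re := by simp [hz0]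
    rw [h2] at h1
    exact (le_abs_self _).trans h1
  have hd0pos : 0 < d0 := by linarith
  set t : ℝ := 1 / (d0 + 2) with ht
  have ht0 : 0 < t := by positivity
  have ht1 : t < 1 := by
    rw [ht, div_lt_one (by positivity)]
    linarith
  have htd : t * d0 < 1 := by
    rw [ht, div_mul_eq_mul_div, one_mul, div_lt_one (by positivity)]
    linarith
  set z : ℂ := z0 + t * (w1 - z0) with hz
  have hzre : z.re = x0 - t * (x0 - w1.re) := by
    simp only [hz, hz0, Complex.add_re, Complex.mul_re, Complex.ofReal_re, Complex.ofReal_im,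
      Complex.sub_re, zero_mul, sub_zero]
    ring
  set x : ℝ := z.re with hx
  have hxlow : x0 - t * d0 ≤ x := by
    rw [hzre]
    nlinarith
  have hxup : x ≤ x0 := by
    rw [hzre]
    have : 0 ≤ t * (x0 - w1.re) := mul_nonneg ht0.le (by linarith)
    linarith
  have hx9 : 9 / δ ^ 2 < x := by linarith
  have hδ9 : 9 ≤ 9 / δ ^ 2 := by
    rw [le_div_iff₀ (by positivity)]
    nlinarith
  have hxpos : 0 < x := by linarith
  set D : ℝ := ‖z - w1‖ with hD
  have hDeq : D = (1 - t) * d0 := by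
    have e : z - w1 = ((1 - t : ℝ) : ℂ) * (z0 - w1) := by
      rw [hz]; push_cast; ring
    rw [hD, e, norm_mul, Complex.norm_real, Real.norm_of_nonneg (by linarith)]
  have hDle : D ≤ x + 1 - β := by
    rw [hDeq]
    linarith
  have hDpos : 0 < D := by
    rw [hDeq]
    exact mul_pos (by linarith) hd0pos
  have hne : z ≠ w1 := by
    intro h
    rw [hD, h, sub_self, norm_zero] at hDpos
    exact lt_irrefl _ hDpos
  -- all the other zeros are farther away
  obtain ⟨e, he, hiso⟩ := isolated (w1 := w1)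
  have hfar : ∀ w : ℂ, Z1 (1 + w) = 0 → w ≠ w1 → D ^ 2 + t * e ^ 2 ≤ ‖z - w‖ ^ 2 := by
    intro w hw hww
    have h1 := stewart z0 w1 w t
    rw [← hz] at h1
    have h2 : d0 ≤ ‖z0 - w‖ := hmin w hw
    have h3 : e ≤ ‖w1 - w‖ := by
      by_contra h
      exact hiso w (not_le.1 h) hww hw
    have h4 : d0 ^ 2 ≤ ‖z0 - w‖ ^ 2 := pow_le_pow_left₀ hd0pos.le h2 2
    have h5 : e ^ 2 ≤ ‖w1 - w‖ ^ 2 := pow_le_pow_left₀ he.le h3 2
    rw [h1, hDeq]
    have h6 := mul_le_mul_of_nonneg_left h4 (show 0 ≤ 1 - t by linarith)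
    have h7 := mul_le_mul_of_nonneg_left h5 ht0.le
    nlinarith
  have hDx1 : D < x + 1 := by linarith
  have hm1 : D < √(min ((x + 1) ^ 2) (D ^ 2 + t * e ^ 2)) := by
    refine Real.lt_sqrt_of_sq_lt (lt_min ?_ ?_)
    · exact pow_lt_pow_left₀ hDx1 hDpos.le (by norm_num)
    · have : 0 < t * e ^ 2 := by positivity
      linarith
  obtain ⟨R, hR1, hR2⟩ := exists_between hm1
  have hR0 : 0 < R := hDpos.trans hR1
  have hR3 : R ^ 2 < min ((x + 1) ^ 2) (D ^ 2 + t * e ^ 2) := (Real.lt_sqrt hR0.le).1 hR2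
  have hU : ∀ w ∈ Metric.closedBall z R, w ≠ w1 → w ∈ UU := by
    intro w hw hww
    rw [mem_closedBall_iff_norm'] at hw
    have hw2 : ‖z - w‖ ^ 2 ≤ R ^ 2 := pow_le_pow_left₀ (norm_nonneg _) hw 2
    constructor
    · intro h
      have h1 : w = -1 := by linear_combination h
      have h2 := Complex.abs_re_le_norm (z - w)
      have h3 : (z - w).re = x + 1 := by rw [h1]; simp [hx]
      rw [h3] at h2
      have h4 : x + 1 ≤ ‖z - w‖ := (le_abs_self _).trans h2
      have h5 : (x + 1) ^ 2 ≤ ‖z - w‖ ^ 2 := pow_le_pow_left₀ (by linarith) h4 2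
      have h6 := hR3.trans_le (min_le_left _ _)
      linarith
    · intro h
      have h1 := hfar w h hww
      have h6 := hR3.trans_le (min_le_right _ _)
      linarith
  -- the real point
  have hkey : (x + 1 - β) ^ 2 < min ((x + 1) ^ 2) ((x + 1 - Th) ^ 2 + g ^ 2) := by
    refine lt_min ?_ ?_
    · exact pow_lt_pow_left₀ (by linarith) (by linarith) (by norm_num)
    · have h1 : (Th - β) * (2 * x0 + 3) < g ^ 2 := by
        rwa [lt_div_iff₀ (by positivity)] at hβTh
      have h2 : (x + 1 - β) ^ 2 - (x + 1 - Th) ^ 2 = (Th - β) * (2 * x + 2 - β - Th) := by ring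
      have h3 : (Th - β) * (2 * x + 2 - β - Th) ≤ (Th - β) * (2 * x0 + 3) :=
        mul_le_mul_of_nonneg_left (by linarith) (by linarith)
      linarith
  have hm2 : x + 1 - β < √(min ((x + 1) ^ 2) ((x + 1 - Th) ^ 2 + g ^ 2)) := Real.lt_sqrt_of_sq_lt hkey
  obtain ⟨R', hR'1, hR'2⟩ := exists_between hm2
  have hR'0 : 0 < R' := by linarith
  have hR'3 : R' ^ 2 < min ((x + 1) ^ 2) ((x + 1 - Th) ^ 2 + g ^ 2) := (Real.lt_sqrt hR'0.le).1 hR'2
  have hU' : Metric.closedBall (x : ℂ) R' ⊆ UU := by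
    intro w hw
    rw [mem_closedBall_iff_norm'] at hw
    have hw2 : ‖(x : ℂ) - w‖ ^ 2 ≤ R' ^ 2 := pow_le_pow_left₀ (norm_nonneg _) hw 2
    have hn : ‖(x : ℂ) - w‖ ^ 2 = (x - w.re) ^ 2 + w.im ^ 2 := by
      rw [Complex.sq_norm, Complex.normSq_apply]
      simp only [Complex.sub_re, Complex.ofReal_re, Complex.sub_im, Complex.ofReal_im]
      ring
    have h6 := hR'3.trans_le (min_le_left _ _)
    have h7 := hR'3.trans_le (min_le_right _ _)
    constructor
    · intro h
      have h1 : w = -1 := by linear_combination h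
      rw [hn, h1] at hw2
      simp at hw2
      linarith
    · intro h
      rcases lt_or_ge (1 + w).re 0 with h8 | h8
      · simp only [Complex.add_re, Complex.one_re] at h8
        rw [hn] at hw2
        nlinarith [sq_nonneg w.im]
      · have h9 := hgap _ h h8
        have h10 := zero_re_le_Th h
        simp only [Complex.add_re, Complex.one_re, Complex.add_im, Complex.one_im, zero_add] at h8 h9 h10
        have h11 : g ^ 2 ≤ w.im ^ 2 := by
          rw [← sq_abs w.im]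
          exact pow_le_pow_left₀ hg.le h9 2
        have h12 : (x + 1 - Th) ^ 2 ≤ (x - w.re) ^ 2 := by
          apply pow_le_pow_left₀ (by linarith)
          linarith
        rw [hn] at hw2
        linarith
  have hexp : Real.exp (-(δ ^ 2 / 8)) * D < x := by
    have h1 : Real.exp (-(δ ^ 2 / 8)) * (x + 1) < x := by
      rw [Real.exp_neg, inv_mul_lt_iff₀ (Real.exp_pos _)]
      have h2 := Real.add_one_le_exp (δ ^ 2 / 8)
      have h3 : 9 < x * δ ^ 2 := by
        rwa [div_lt_iff₀ (by positivity)] at hx9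
      nlinarith
    exact (mul_lt_mul_of_pos_left hDx1 (Real.exp_pos _)).trans h1
  have hw1ne : 1 + w1 ≠ 0 := by
    intro h
    rw [h] at hw1Z
    exact Z1_zero_ne hw1Z
  obtain ⟨n0, hn0⟩ := core (z := z) (w1 := w1) (R := R) (R' := R') (a := 1 - b) (A := A) (d := δ)
    hxpos hw1Z hw1ne hne hR1 hU (by linarith) (by linarith) hU' (by linarith) hA (by linarith) hδ0 hδ1 hexp
  exact ⟨x, hxpos, n0, hn0⟩

end

end Pool.Agent.K3h56.Nic
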