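import Pool.Agent.K3h56.Nic.Mom

/-!
# Moments near a zero: the contribution of the nearest pole
-/

set_option autoImplicit false

namespace Pool.Agent.K3h56.Nic

open Filter Topology MeasureTheory
open Pool.Agent.W263.BSD (LInt lap lapC)
open Pool.Agent.W66 (Z1 DD)
open Pool.Agent.K3h81.RB

noncomputable section

lemma iter_inv_norm (n : ℕ) (z w1 : ℂ) :
    ‖iteratedDeriv n (fun w : ℂ => (w - w1)⁻¹) z‖ = n.factorial / ‖z - w1‖ ^ (n + 1) := by
  have h := iter_deriv_inv_linear_sub n (1 : ℂ) w1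
  simp only [one_mul, one_pow, mul_one] at h
  rw [iteratedDeriv_eq_iterate, h]
  simp only [norm_mul, norm_pow, norm_neg, norm_one, one_pow, one_mul, norm_zpow]
  rw [Complex.norm_natCast, show (-1 - (n : ℤ)) = -((n + 1 : ℕ) : ℤ) by push_cast; ring, zpow_neg,
    zpow_natCast, div_eq_mul_inv]

lemma Z1s_diff : Differentiable ℂ (fun w : ℂ => Z1 (1 + w)) :=
  Pool.Agent.W66.Z1_diff.comp (by fun_prop)

lemma Z1s_deriv (w : ℂ) : deriv (fun w : ℂ => Z1 (1 + w)) w = deriv Z1 (1 + w) :=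
  deriv_comp_const_add Z1 1 w

lemma Z1s_not_zero (w1 : ℂ) : ¬ ∀ᶠ w in 𝓝 w1, Z1 (1 + w) = 0 := by
  intro h
  have h1 : AnalyticOnNhd ℂ (fun w : ℂ => Z1 (1 + w)) Set.univ := fun w _ => Z1s_diff.analyticAt w
  have h2 : AnalyticOnNhd ℂ (fun _ : ℂ => (0 : ℂ)) Set.univ := fun w _ => analyticAt_const
  have h3 := h1.eqOn_of_preconnected_of_eventuallyEq h2 isPreconnected_univ (Set.mem_univ w1) h
  have h4 := h3 (Set.mem_univ 0)
  simp only [add_zero] at h4
  rw [Pool.Agent.W66.Z1_one] at h4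
  exact one_ne_zero h4

/-- the principal part of the transform at a zero -/
lemma principal {w1 : ℂ} (h1 : Z1 (1 + w1) = 0) (h2 : 1 + w1 ≠ 0) :
    ∃ c : ℂ, c ≠ 0 ∧ ∃ E : ℂ → ℂ, AnalyticAt ℂ E w1 ∧
      ∀ᶠ w in 𝓝[≠] w1, Phc w = E w + c * (w - w1)⁻¹ := by
  obtain ⟨m, g, hg, hg0, hfg⟩ := ((Z1s_diff.analyticAt w1).exists_eventuallyEq_pow_smul_nonzero_iff).2
    (Z1s_not_zero w1)
  have hm : m ≠ 0 := by
    rintro rfl
    have := hfg.self_of_nhds
    rw [h1, pow_zero, one_smul] at this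
    exact hg0 this.symm
  have hmc : (m : ℂ) ≠ 0 := by exact_mod_cast hm
  refine ⟨-(m / (1 + w1)), neg_ne_zero.2 (div_ne_zero hmc h2),
    fun w => -(1 + deriv g w / g w) / (1 + w) + m / ((1 + w1) * (1 + w)), ?_, ?_⟩
  · have e1 : AnalyticAt ℂ (fun w : ℂ => 1 + w) w1 := analyticAt_const.add analyticAt_id
    have e2 : AnalyticAt ℂ (fun w => deriv g w / g w) w1 := hg.deriv.div hg hg0
    exact ((analyticAt_const.add e2).neg.div e1 h2).add
      (analyticAt_const.div (analyticAt_const.mul e1) (mul_ne_zero h2 h2))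
  · have hd : ∀ᶠ w in 𝓝 w1, deriv (fun w : ℂ => Z1 (1 + w)) w =
        (m : ℂ) * (w - w1) ^ (m - 1) * g w + (w - w1) ^ m * deriv g w := by
      have h3 := hfg.eventually_nhds
      have h4 : ∀ᶠ w in 𝓝 w1, AnalyticAt ℂ g w := hg.eventually_analyticAt
      filter_upwards [h3, h4] with w hw hgw
      rw [Filter.EventuallyEq.deriv_eq hw]
      have h5 : HasDerivAt (fun w : ℂ => w - w1) 1 w := (hasDerivAt_id w).sub_const w1
      have h6 := (h5.pow m).mul hgw.differentiableAt.hasDerivAt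
      simp only [smul_eq_mul]
      have h7 := h6.deriv
      rw [show (fun z => (z - w1) ^ m * g z) = ((fun w : ℂ => w - w1) ^ m * g) from rfl, h7]
      simp only [Pi.pow_apply]
      ring
    have hg0' : ∀ᶠ w in 𝓝 w1, g w ≠ 0 := hg.continuousAt.eventually_ne hg0
    have h10 : ∀ᶠ w in 𝓝 w1, 1 + w ≠ 0 :=
      (by fun_prop : ContinuousAt (fun w : ℂ => 1 + w) w1).eventually_ne h2
    rw [eventually_nhdsWithin_iff]
    filter_upwards [hfg, hd, hg0', h10] with w e1 e2 e3 e4 hw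
    have hw1 : w - w1 ≠ 0 := sub_ne_zero.2 hw
    rw [Z1s_deriv] at e2
    have e5 : Phc w = -(1 + deriv Z1 (1 + w) / Z1 (1 + w)) / (1 + w) := rfl
    rw [e5, e2, e1, smul_eq_mul]
    obtain ⟨k, rfl⟩ : ∃ k, m = k + 1 := ⟨m - 1, by omega⟩
    rw [Nat.add_sub_cancel, pow_succ]
    have hk : (w - w1) ^ k ≠ 0 := pow_ne_zero _ hw1
    have h8 : (((k + 1 : ℕ) : ℂ) * (w - w1) ^ k * g w + (w - w1) ^ k * (w - w1) * deriv g w) /
        ((w - w1) ^ k * (w - w1) * g w) = ((k + 1 : ℕ) : ℂ) / (w - w1) + deriv g w / g w := by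
      field_simp
    rw [h8]
    field_simp
    ring

/-- **The moments are dominated by the nearest pole.** -/
theorem pole {z w1 : ℂ} {R : ℝ} (hz : 0 < z.re) (h1 : Z1 (1 + w1) = 0) (h2 : 1 + w1 ≠ 0)
    (hne : z ≠ w1) (hD : ‖z - w1‖ < R) (hU : ∀ w ∈ Metric.closedBall z R, w ≠ w1 → w ∈ UU) :
    ∃ c : ℝ, 0 < c ∧ ∃ M : ℝ, 0 ≤ M ∧ ∀ n : ℕ,
      n.factorial * (c / ‖z - w1‖ ^ (n + 1) - M / R ^ n) ≤ ‖IM n z‖ ∧
      ‖IM n z‖ ≤ n.factorial * (c / ‖z - w1‖ ^ (n + 1) + M / R ^ n) := by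
  obtain ⟨c, hc, E0, hE0, hE⟩ := principal h1 h2
  have hR0 : 0 < R := lt_of_le_of_lt (norm_nonneg _) hD
  set E : ℂ → ℂ := fun w => if w = w1 then E0 w1 else Phc w - c * (w - w1)⁻¹ with hEdef
  have hEd : ∀ w ∈ Metric.closedBall z R, DifferentiableAt ℂ E w := by
    intro w hw
    by_cases h : w = w1
    · subst h
      have h3 : E =ᶠ[𝓝 w] E0 := by
        rw [eventually_nhdsWithin_iff] at hE
        filter_upwards [hE] with v hv
        simp only [hEdef]
        by_cases hvw : v = w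
        · rw [if_pos hvw, hvw]
        · rw [if_neg hvw, hv hvw]
          ring
      exact hE0.differentiableAt.congr_of_eventuallyEq h3
    · have h3 : E =ᶠ[𝓝 w] fun w => Phc w - c * (w - w1)⁻¹ := by
        filter_upwards [isOpen_ne.mem_nhds h] with v hv
        simp only [hEdef]
        rw [if_neg hv]
      refine DifferentiableAt.congr_of_eventuallyEq ?_ h3
      have h4 := Phc_diff.differentiableAt (UU_open.mem_nhds (hU w hw h))
      have h5 : DifferentiableAt ℂ (fun w : ℂ => c * (w - w1)⁻¹) w :=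
        ((differentiableAt_id.sub_const w1).inv (sub_ne_zero.2 h)).const_mul c
      exact h4.sub h5
  have hEo : DifferentiableOn ℂ E (Metric.closedBall z R) := fun w hw => (hEd w hw).differentiableWithinAt
  have hzb : z ∈ Metric.ball z R := Metric.mem_ball_self hR0
  have hEa : AnalyticAt ℂ E z := (hEo.mono Metric.ball_subset_closedBall).analyticAt
    (Metric.isOpen_ball.mem_nhds hzb)
  have hIa : AnalyticAt ℂ (fun w : ℂ => (w - w1)⁻¹) z :=
    (analyticAt_id.sub analyticAt_const).inv (sub_ne_zero.2 hne)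
  -- Cauchy's estimate for the regular part
  obtain ⟨M, hM⟩ := (isCompact_sphere z R).exists_bound_of_continuousOn
    (hEo.continuousOn.mono Metric.sphere_subset_closedBall)
  have hdc : DiffContOnCl ℂ E (Metric.ball z R) :=
    DifferentiableOn.diffContOnCl (hEo.mono Metric.closure_ball_subset_closedBall)
  have hcau := fun n : ℕ => Complex.norm_iteratedDeriv_le_of_forall_mem_sphere_norm_le n hR0 hdc
    (fun w hw => (hM w hw).trans (le_max_left M 0))
  have hsplit : ∀ n : ℕ, iteratedDeriv n Phc z = iteratedDeriv n E z +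
      c * iteratedDeriv n (fun w : ℂ => (w - w1)⁻¹) z := by
    intro n
    have h3 : Phc =ᶠ[𝓝 z] fun w => E w + c * (w - w1)⁻¹ := by
      filter_upwards [isOpen_ne.mem_nhds hne] with v hv
      simp only [hEdef]
      rw [if_neg hv]
      ring
    have hcI : AnalyticAt ℂ (fun w : ℂ => c * (w - w1)⁻¹) z := analyticAt_const.mul hIa
    rw [h3.iteratedDeriv_eq n, iteratedDeriv_fun_add hEa.contDiffAt hcI.contDiffAt,
      iteratedDeriv_const_mul_field]
  refine ⟨‖c‖, norm_pos_iff.2 hc, max M 0, le_max_right _ _, fun n => ?_⟩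
  have h3 : ‖IM n z‖ = ‖iteratedDeriv n Phc z‖ := by
    rw [IM_Phc hz, norm_mul, norm_pow, norm_neg, norm_one, one_pow, one_mul]
  have h4 := hcau n
  have h5 : ‖c * iteratedDeriv n (fun w : ℂ => (w - w1)⁻¹) z‖ = ‖c‖ * (n.factorial / ‖z - w1‖ ^ (n + 1)) := by
    rw [norm_mul, iter_inv_norm]
  rw [h3, hsplit n]
  have h6 := norm_add_le (iteratedDeriv n E z) (c * iteratedDeriv n (fun w : ℂ => (w - w1)⁻¹) z)
  have h7 := norm_sub_le (iteratedDeriv n E z + c * iteratedDeriv n (fun w : ℂ => (w - w1)⁻¹) z)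
    (iteratedDeriv n E z)
  rw [add_sub_cancel_left] at h7
  rw [h5] at h6 h7
  have e1 : (n.factorial : ℝ) * (‖c‖ / ‖z - w1‖ ^ (n + 1) - max M 0 / R ^ n) =
      ‖c‖ * (n.factorial / ‖z - w1‖ ^ (n + 1)) - n.factorial * max M 0 / R ^ n := by ring
  have e2 : (n.factorial : ℝ) * (‖c‖ / ‖z - w1‖ ^ (n + 1) + max M 0 / R ^ n) =
      ‖c‖ * (n.factorial / ‖z - w1‖ ^ (n + 1)) + n.factorial * max M 0 / R ^ n := by ring
  rw [e1, e2]
  constructor <;> linarith

end

end Pool.Agent.K3h56.Nic
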