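import Pool.Agent.K3h56.Nic.Av
import Pool.Agent.K3h56.Nic.Pole

/-!
# `kk` is very negative somewhere on every long window
-/

set_option autoImplicit false

namespace Pool.Agent.K3h56.Nic

open Filter Topology MeasureTheory
open Pool.Agent.W263.BSD (LInt lap lapC)
open Pool.Agent.W66 (Z1 DD)
open Pool.Agent.K3h81.RB

noncomputable section

lemma avabs_nonneg {x : ℝ} (hx : 0 < x) (j : ℕ) : 0 ≤ avabs x j := by
  unfold avabs
  refine setIntegral_nonneg measurableSet_Ioi fun u hu => ?_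
  exact mul_nonneg (abs_nonneg _) (kap_nonneg hx j (le_of_lt hu))

theorem core {z w1 : ℂ} {R R' a A d : ℝ} (hz : 0 < z.re) (h1 : Z1 (1 + w1) = 0) (h2 : 1 + w1 ≠ 0)
    (hne : z ≠ w1) (hD : ‖z - w1‖ < R) (hU : ∀ w ∈ Metric.closedBall z R, w ≠ w1 → w ∈ UU)
    (hD' : ‖z - w1‖ < R') (hR' : z.re < R') (hU' : Metric.closedBall (z.re : ℂ) R' ⊆ UU)
    (ha : 0 < a) (hA : 0 ≤ A) (hDa : ‖z - w1‖ < z.re + a) (hd0 : 0 < d) (hd : d ≤ 1)
    (hDd : Real.exp (-(d ^ 2 / 8)) * ‖z - w1‖ < z.re) :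
    ∃ n0 : ℕ, ∀ n : ℕ, n0 ≤ n → ∃ u ∈ WW z.re d n, kk u < -(A * Real.exp (-(a * u))) := by
  set x := z.re with hx
  set D := ‖z - w1‖ with hDdef
  have hD0 : 0 < D := norm_pos_iff.2 (sub_ne_zero.2 hne)
  have hR0 : 0 < R := hD0.trans hD
  have hR'0 : 0 < R' := hz.trans hR'
  obtain ⟨c, hc, M, hM, hpole⟩ := pole hz h1 h2 hne hD hU
  obtain ⟨C1, hC1, hav⟩ := av_bound hz hR' hU'
  obtain ⟨C2, hC2, hab⟩ := avabs_bound (A := A) hz ha hA hd0 hd
  -- the rate
  set q : ℝ := max (x / R') (max (x / (x + a)) (Real.exp (-(d ^ 2 / 8)))) with hq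
  have hq0 : 0 < q := lt_of_lt_of_le (div_pos hz hR'0) (le_max_left _ _)
  have hqD : q * D < x := by
    have e1 : x / R' * D < x := by
      rw [div_mul_eq_mul_div, div_lt_iff₀ hR'0]
      exact mul_lt_mul_of_pos_left hD' hz
    have e2 : x / (x + a) * D < x := by
      rw [div_mul_eq_mul_div, div_lt_iff₀ (by positivity)]
      exact mul_lt_mul_of_pos_left hDa hz
    rcases max_choice (x / R') (max (x / (x + a)) (Real.exp (-(d ^ 2 / 8)))) with h | h
    · rw [hq, h]; exact e1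
    · rcases max_choice (x / (x + a)) (Real.exp (-(d ^ 2 / 8))) with h' | h'
      · rw [hq, h, h']; exact e2
      · rw [hq, h, h']; exact hDd
  have hxR1 : x / R' ≤ 1 := (div_le_one hR'0).2 hR'.le
  set C3 : ℝ := C1 + 2 * C2 with hC3
  have hC30 : 0 ≤ C3 := by positivity
  have hbd : ∀ n : ℕ, (∀ u ∈ WW x d n, -(A * Real.exp (-(a * u))) ≤ kk u) →
      ∀ j : ℕ, n + 1 ≤ j → j ≤ n + 2 → avabs x j ≤ C3 * q ^ n := by
    intro n hw j hj1 hj2
    have g1 := hab n hw j hj1 hj2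
    have g2 := hav j (by omega)
    have g3 : (x / R') ^ j ≤ q ^ n := by
      calc (x / R') ^ j ≤ (x / R') ^ n := pow_le_pow_of_le_one (by positivity) hxR1 (by omega)
        _ ≤ q ^ n := pow_le_pow_left₀ (by positivity) (le_max_left _ _) n
    have g4 : (x / (x + a)) ^ n ≤ q ^ n := pow_le_pow_left₀ (by positivity)
      ((le_max_left _ _).trans (le_max_right _ _)) n
    have g5 : Real.exp (-(d ^ 2 / 8)) ^ n ≤ q ^ n := pow_le_pow_left₀ (by positivity)
      ((le_max_right _ _).trans (le_max_right _ _)) n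
    calc avabs x j ≤ |av x j| + C2 * ((x / (x + a)) ^ n + Real.exp (-(d ^ 2 / 8)) ^ n) := g1
      _ ≤ C1 * q ^ n + C2 * (q ^ n + q ^ n) := by
          refine add_le_add (g2.trans (mul_le_mul_of_nonneg_left g3 hC1)) ?_
          exact mul_le_mul_of_nonneg_left (add_le_add g4 g5) hC2
      _ = C3 * q ^ n := by rw [hC3]; ring
  set r : ℝ := q * D / x with hr
  have hr0 : 0 ≤ r := by positivity
  have hr1 : r < 1 := by rw [hr, div_lt_one hz]; exact hqD
  set p : ℝ := D / R with hp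
  have hp0 : 0 ≤ p := by positivity
  have hp1 : p < 1 := by rw [hp, div_lt_one hR0]; exact hD
  set C4 : ℝ := C3 * (1 + ‖z‖ / x) * (D / x) ^ 2 with hC4
  -- limits
  have l1 : Tendsto (fun n : ℕ => p ^ n) atTop (𝓝 0) := tendsto_pow_atTop_nhds_zero_of_lt_one hp0 hp1
  have l2 : Tendsto (fun n : ℕ => (n : ℝ) * r ^ n) atTop (𝓝 0) := tendsto_self_mul_const_pow_of_lt_one hr0 hr1
  have l3 : Tendsto (fun n : ℕ => r ^ n) atTop (𝓝 0) := tendsto_pow_atTop_nhds_zero_of_lt_one hr0 hr1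
  have l4 : Tendsto (fun n : ℕ => 1 / ((n : ℝ) + 1)) atTop (𝓝 0) := tendsto_one_div_add_atTop_nhds_zero_nat
  have l5 : Tendsto (fun n : ℕ => c - M * D * p * p ^ n -
      1 / ((n : ℝ) + 1) * (c * D + M * D ^ 2 * p ^ n) - C4 * ((n : ℝ) * r ^ n + 2 * r ^ n)) atTop
      (𝓝 (c - M * D * p * 0 - 0 * (c * D + M * D ^ 2 * 0) - C4 * (0 + 2 * 0))) :=
    ((tendsto_const_nhds.sub (l1.const_mul _)).sub (l4.mul ((l1.const_mul _).const_add _))).sub
      ((l2.add (l3.const_mul 2)).const_mul C4)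
  have l6 : c - M * D * p * 0 - 0 * (c * D + M * D ^ 2 * 0) - C4 * (0 + 2 * 0) = c := by ring
  rw [l6] at l5
  obtain ⟨n0, hn0⟩ := (l5.eventually (lt_mem_nhds hc)).exists_forall_of_atTop
  refine ⟨n0, fun n hn => ?_⟩
  by_contra hcon
  push Not at hcon
  have hb := hbd n hcon
  have b1 := hb (n + 1) le_rfl (by omega)
  have b2 := hb (n + 2) (by omega) le_rfl
  have s1 := star n hz
  obtain ⟨-, p1⟩ := hpole n
  obtain ⟨p2, -⟩ := hpole (n + 1)
  have k1 := BM_le hz (j := n + 1) (by omega)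
  have k2 := BM_le hz (j := n + 2) (by omega)
  rw [← hx] at k1 k2
  have n1 : ‖IM (n + 1) z‖ ≤ ‖IM n z‖ + ‖IM n z + IM (n + 1) z‖ := by
    have := norm_sub_le (IM n z + IM (n + 1) z) (IM n z)
    rw [add_sub_cancel_left] at this
    linarith
  have n2 : ‖IM n z + IM (n + 1) z‖ ≤ ((n : ℝ) + 2) * ‖BM (n + 1) z‖ + ‖z‖ * ‖BM (n + 2) z‖ := by
    rw [s1]
    refine (norm_sub_le _ _).trans (le_of_eq ?_)
    rw [norm_mul, norm_mul]
    have : ((n : ℂ) + 2) = (((n : ℝ) + 2 : ℝ) : ℂ) := by push_cast; rfl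
    rw [this, Complex.norm_real, Real.norm_of_nonneg (by positivity)]
  have hfn2 : ((n + 2).factorial : ℝ) = ((n : ℝ) + 2) * (n + 1).factorial := by
    rw [Nat.factorial_succ (n + 1)]
    push_cast
    ring
  have hfn1 : ((n + 1).factorial : ℝ) = ((n : ℝ) + 1) * n.factorial := by
    rw [Nat.factorial_succ n]
    push_cast
    ring
  have n3 : ‖IM n z + IM (n + 1) z‖ ≤ (n + 1).factorial * (((n : ℝ) + 2) / x ^ (n + 2) *
      (C3 * (1 + ‖z‖ / x) * q ^ n)) := by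
    refine n2.trans ?_
    calc ((n : ℝ) + 2) * ‖BM (n + 1) z‖ + ‖z‖ * ‖BM (n + 2) z‖ ≤
        ((n : ℝ) + 2) * ((n + 1).factorial / x ^ (n + 1 + 1) * (C3 * q ^ n)) +
        ‖z‖ * ((n + 2).factorial / x ^ (n + 2 + 1) * (C3 * q ^ n)) := by
          gcongr
          · exact k1.trans (mul_le_mul_of_nonneg_left b1 (by positivity))
          · exact k2.trans (mul_le_mul_of_nonneg_left b2 (by positivity))
      _ = _ := by
          rw [hfn2]
          field_simp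
          ring
  have hf0 : (0 : ℝ) < (n + 1).factorial := by positivity
  have n4 : (n.factorial : ℝ) = (n + 1).factorial * (1 / ((n : ℝ) + 1)) := by
    rw [hfn1]; field_simp
  rw [n4] at p1
  have n5 : (n + 1).factorial * (c / D ^ (n + 1 + 1) - M / R ^ (n + 1)) ≤
      (n + 1).factorial * ((1 / ((n : ℝ) + 1)) * (c / D ^ (n + 1) + M / R ^ n) +
      (((n : ℝ) + 2) / x ^ (n + 2) * (C3 * (1 + ‖z‖ / x) * q ^ n))) := by
    have := p2.trans (n1.trans (add_le_add p1 n3))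
    calc _ ≤ _ := this
      _ = _ := by ring
  have n6 := le_of_mul_le_mul_left n5 hf0
  have n7 := mul_le_mul_of_nonneg_right n6 (show 0 ≤ D ^ (n + 2) by positivity)
  have e1 : (c / D ^ (n + 1 + 1) - M / R ^ (n + 1)) * D ^ (n + 2) = c - M * D * p * p ^ n := by
    rw [hp, div_pow]
    field_simp
    ring
  have e2 : ((1 / ((n : ℝ) + 1)) * (c / D ^ (n + 1) + M / R ^ n) +
      (((n : ℝ) + 2) / x ^ (n + 2) * (C3 * (1 + ‖z‖ / x) * q ^ n))) * D ^ (n + 2) =
      1 / ((n : ℝ) + 1) * (c * D + M * D ^ 2 * p ^ n) + C4 * ((n : ℝ) * r ^ n + 2 * r ^ n) := by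
    have hx0 : x ≠ 0 := hz.ne'
    have er : r ^ n = q ^ n * D ^ n / x ^ n := by rw [hr, div_pow, mul_pow]
    have ep : p ^ n = D ^ n / R ^ n := by rw [hp, div_pow]
    rw [er, ep, hC4]
    field_simp
    ring
  rw [e1, e2] at n7
  have n8 := hn0 n hn
  linarith

end

end Pool.Agent.K3h56.Nic
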