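import Pool.Agent.K3h56.Nic.Choice

/-!
# Every long window contains a large value of Mertens' product
-/

set_option autoImplicit false

namespace Pool.Agent.K3h56.Nic

open Filter Topology MeasureTheory
open Pool.Agent.K3h81.RB

noncomputable section

/-- every interval `[(1-δ) U, U]` contains a very negative value of `kk` -/
theorem window_all {b A δ : ℝ} (hb0 : 0 < b) (hb : b < Th) (hA : 0 ≤ A) (hδ0 : 0 < δ) (hδ1 : δ ≤ 1) :
    ∀ᶠ U : ℝ in atTop, ∃ u : ℝ, (1 - δ) * U ≤ u ∧ u ≤ U ∧ kk u < -(A * Real.exp (-((1 - b) * u))) := by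
  obtain ⟨x, hx, n0, hn0⟩ := window (b := b) (A := A) (δ := δ / 3) hb0 hb hA (by linarith) (by linarith)
  filter_upwards [eventually_ge_atTop (((n0 : ℝ) + 1) * (1 + δ / 3) / x), eventually_ge_atTop (3 / (δ * x)),
    eventually_ge_atTop 0] with U h1 h2 h3
  set n : ℕ := ⌊x * U / (1 + δ / 3)⌋₊ with hn
  have hd : 0 < 1 + δ / 3 := by positivity
  have e0 : 0 ≤ x * U / (1 + δ / 3) := by positivity
  have hn1 : (n : ℝ) ≤ x * U / (1 + δ / 3) := Nat.floor_le e0
  have hn2 : x * U / (1 + δ / 3) < n + 1 := Nat.lt_floor_add_one _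
  have hnn : n0 ≤ n := by
    refine Nat.le_floor ?_
    rw [div_le_iff₀ hx] at h1
    rw [le_div_iff₀ hd]
    nlinarith
  obtain ⟨u, hu, hk⟩ := hn0 n hnn
  unfold WW at hu
  rw [Set.mem_Icc] at hu
  refine ⟨u, ?_, ?_, hk⟩
  · refine le_trans ?_ hu.1
    rw [le_div_iff₀ hx]
    rw [div_lt_iff₀ hd] at hn2
    have h4 : 3 ≤ U * (δ * x) := by rwa [div_le_iff₀ (by positivity)] at h2
    have hU : 0 ≤ U * x := by positivity
    have h5 : (1 - δ) * U * x ≤ (1 - 2 * δ / 3) * (U * x) - 1 := by nlinarith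
    have h6 : (1 - 2 * δ / 3) * (x * U) ≤ (1 - δ / 3) * (x * U / (1 + δ / 3)) := by
      rw [mul_div_assoc', le_div_iff₀ hd]
      nlinarith [mul_nonneg hU (sq_nonneg δ)]
    have h7 : (1 - δ / 3) * (x * U / (1 + δ / 3)) ≤ (1 - δ / 3) * (n + 1) := by
      refine mul_le_mul_of_nonneg_left ?_ (by linarith)
      rw [div_le_iff₀ hd]
      exact hn2.le
    have h8 : (1 - δ / 3) * ((n : ℝ) + 1) ≤ (1 - δ / 3) * n + 1 := by nlinarith
    nlinarith
  · refine hu.2.trans ?_
    rw [div_le_iff₀ hx]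
    rw [le_div_iff₀ hd] at hn1
    linarith

/-- a pointwise version of `kk_lower` -/
lemma kk_lower_pt {b C u : ℝ} (hb0 : 0 < b) (hb1 : b < 1) (hC : 0 ≤ C)
    (h : JJ (⌊Real.exp u⌋₊ : ℝ) ≤ C * (⌊Real.exp u⌋₊ : ℝ) ^ (b - 1)) (hu : 2 ≤ u) :
    -((2 * C + 2) * Real.exp ((b - 1) * u)) ≤ kk u := by
  set x := Real.exp u with hx
  have hx7 : 7 ≤ x := by
    have h1 : Real.exp 2 ≤ x := Real.exp_le_exp.2 hu
    have h2 : Real.exp 2 = Real.exp 1 * Real.exp 1 := by rw [← Real.exp_add]; norm_num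
    have h3 := Real.exp_one_gt_d9
    nlinarith
  have hx0 : 0 < x := by linarith
  have hlog : Real.log x = u := Real.log_exp u
  obtain ⟨τ, ht0, ht1, hid⟩ := mertens_id (show (2 : ℝ) ≤ x by linarith)
  have h1 : KK x ≤ kk u := KK_le_kk (by linarith [Real.log_two_lt_d9])
  have h2 := loglog_tangent (show (1 : ℝ) < x by linarith) (theta_gt_one (show (5 : ℝ) ≤ x by linarith))
  have h3 : JJ x ≤ C * (⌊x⌋₊ : ℝ) ^ (b - 1) := by
    rw [JJ_floor]
    exact h
  have h4 : (⌊x⌋₊ : ℝ) ^ (b - 1) ≤ 2 * x ^ (b - 1) := by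
    have h5 : x / 2 ≤ ⌊x⌋₊ := by
      have := Nat.lt_floor_add_one x
      linarith
    calc (⌊x⌋₊ : ℝ) ^ (b - 1) ≤ (x / 2) ^ (b - 1) :=
          Real.rpow_le_rpow_of_nonpos (by positivity) h5 (by linarith)
      _ = x ^ (b - 1) / 2 ^ (b - 1) := Real.div_rpow hx0.le (by norm_num) _
      _ ≤ 2 * x ^ (b - 1) := by
          rw [div_le_iff₀ (by positivity)]
          have h6 : (1 : ℝ) / 2 ≤ 2 ^ (b - 1) := by
            calc (1 : ℝ) / 2 = 2 ^ (-1 : ℝ) := by rw [Real.rpow_neg_one]; norm_num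
              _ ≤ 2 ^ (b - 1) := Real.rpow_le_rpow_of_exponent_le (by norm_num) (by linarith)
          have h7 : 0 < x ^ (b - 1) := by positivity
          nlinarith
  have h5 : 1 / x ≤ x ^ (b - 1) := by
    rw [one_div, ← Real.rpow_neg_one]
    exact Real.rpow_le_rpow_of_exponent_le (by linarith) (by linarith)
  have h6 : x ^ (b - 1) = Real.exp ((b - 1) * u) := by
    rw [hx, ← Real.exp_mul]
    congr 1
    ring
  have h7 : 2 / x = 2 * (1 / x) := by ring
  have h8 : (Chebyshev.theta x - x) / (x * Real.log x) = Rr x / (x * Real.log x) := rfl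
  rw [h8] at h2
  have h9 : C * (⌊x⌋₊ : ℝ) ^ (b - 1) ≤ C * (2 * x ^ (b - 1)) := mul_le_mul_of_nonneg_left h4 hC
  unfold JJ at h3
  rw [← h6]
  linarith

/-- **Localised oscillation of Mertens' product**: every interval `[X^(1-δ), X]` with `X` large contains
an integer `N` with `JJ N > C N^(b-1)`. -/
theorem JJ_window {b C δ : ℝ} (hb0 : 0 < b) (hb : b < Th) (hC : 0 ≤ C) (hδ0 : 0 < δ) (hδ1 : δ ≤ 1) :
    ∀ᶠ X : ℝ in atTop, ∃ N : ℕ, X ^ (1 - δ) ≤ N ∧ (N : ℝ) ≤ X ∧ C * (N : ℝ) ^ (b - 1) < JJ N := by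
  have hb1 : b < 1 := hb.trans_le Th_le
  have hw := window_all (b := b) (A := 2 * C + 2) (δ := δ / 2) hb0 hb (by positivity) (by linarith) (by linarith)
  have hpow : Tendsto (fun X : ℝ => X ^ (δ / 2)) atTop atTop := tendsto_rpow_atTop (by linarith)
  filter_upwards [Real.tendsto_log_atTop.eventually hw, Real.tendsto_log_atTop.eventually_ge_atTop 4,
    hpow.eventually_ge_atTop 2, eventually_ge_atTop 1] with X ⟨u, h1, h2, h3⟩ h4 h5 h6
  have hX0 : 0 < X := by linarith
  have hu2 : 2 ≤ u := by nlinarith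
  refine ⟨⌊Real.exp u⌋₊, ?_, ?_, ?_⟩
  · have e1 : X ^ (1 - δ / 2) ≤ Real.exp u := by
      rw [Real.rpow_def_of_pos hX0]
      apply Real.exp_le_exp.2
      linarith
    have e2 : X ^ (1 - δ / 2) = X ^ (1 - δ) * X ^ (δ / 2) := by
      rw [← Real.rpow_add hX0]; congr 1; ring
    have e3 := Nat.lt_floor_add_one (Real.exp u)
    have e4 : 1 ≤ X ^ (1 - δ) := Real.one_le_rpow h6 (by linarith)
    nlinarith
  · refine (Nat.floor_le (Real.exp_pos u).le).trans ?_
    rw [← Real.exp_log hX0]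
    exact Real.exp_le_exp.2 h2
  · by_contra hcon
    have h7 := kk_lower_pt hb0 hb1 hC (not_lt.1 hcon) hu2
    have e : (b - 1) * u = -((1 - b) * u) := by ring
    rw [e] at h7
    linarith

/-- counting with a window -/
theorem window_count {P : ℕ → Prop} {b C κ κ' c0 : ℝ} (hb0 : 0 < b) (hb : b < Th) (hC : 0 ≤ C)
    (hc0 : 0 < c0) (hκ0 : 0 ≤ κ') (hκ : κ' < κ)
    (h : ∀ᶠ N : ℕ in atTop, C * (N : ℝ) ^ (b - 1) < JJ N →
      Real.exp ((N : ℝ) ^ κ) - 1 ≤ cE P (Real.exp (c0 * N))) :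
    ∀ᶠ x : ℝ in atTop, Real.exp (Real.log x ^ κ') ≤ cE P x := by
  have hκp : 0 < κ := by linarith
  set δ : ℝ := (κ - κ') / (2 * κ) with hδ
  have hδ0 : 0 < δ := div_pos (by linarith) (by linarith)
  have hδ1 : δ ≤ 1 := by rw [hδ, div_le_one (by linarith)]; linarith
  have hδ2 : δ < 1 := by rw [hδ, div_lt_one (by linarith)]; linarith
  have hexp : κ' < (1 - δ) * κ := by
    have : δ * κ = (κ - κ') / 2 := by rw [hδ]; field_simp
    nlinarith
  have hJ := JJ_window (b := b) (C := C) (δ := δ) hb0 hb hC hδ0 hδ1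
  obtain ⟨N0, hN0⟩ := h.exists_forall_of_atTop
  have hdiv : Tendsto (fun x : ℝ => Real.log x / c0) atTop atTop :=
    Real.tendsto_log_atTop.atTop_div_const hc0
  have hp1 : ∀ᶠ X : ℝ in atTop, (N0 : ℝ) ≤ X ^ (1 - δ) :=
    (tendsto_rpow_atTop (by linarith)).eventually_ge_atTop _
  have hp2 : ∀ᶠ X : ℝ in atTop, (c0 ^ κ' + 1) * X ^ κ' ≤ X ^ ((1 - δ) * κ) := ev_pow _ hexp
  filter_upwards [hdiv.eventually hJ, hdiv.eventually hp1, hdiv.eventually hp2,
    hdiv.eventually_ge_atTop 1, eventually_gt_atTop 0] with x ⟨N, a1, a2, a3⟩ a4 a5 a6 hx0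
  set X : ℝ := Real.log x / c0 with hX
  have hN : N0 ≤ N := by exact_mod_cast a4.trans a1
  have h1 := hN0 N hN a3
  have h2 : cE P (Real.exp (c0 * N)) ≤ cE P x := by
    refine cE_mono P ?_
    rw [← Real.le_log_iff_exp_le hx0]
    rw [hX, le_div_iff₀ hc0] at a2
    linarith
  have h2' : (cE P (Real.exp (c0 * N)) : ℝ) ≤ cE P x := by exact_mod_cast h2
  refine le_trans ?_ (h1.trans h2')
  have h3 : X ^ ((1 - δ) * κ) ≤ (N : ℝ) ^ κ := by
    rw [Real.rpow_mul (by linarith)]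
    exact Real.rpow_le_rpow (by positivity) a1 hκp.le
  have h4 : Real.log x ^ κ' = c0 ^ κ' * X ^ κ' := by
    rw [← Real.mul_rpow hc0.le (by linarith)]
    congr 1
    rw [hX]
    field_simp
  have h5 : 1 ≤ X ^ κ' := Real.one_le_rpow a6 hκ0
  have h6 : Real.log x ^ κ' + 1 ≤ (N : ℝ) ^ κ := by
    rw [h4]
    linarith
  have h7 : 0 ≤ Real.log x ^ κ' := by rw [h4]; positivity
  calc Real.exp (Real.log x ^ κ') ≤ Real.exp (Real.log x ^ κ' + 1) - 1 := by
        rw [Real.exp_add]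
        have e1 := Real.exp_one_gt_d9
        have e2 := Real.one_le_exp h7
        nlinarith
    _ ≤ _ := by
        have := Real.exp_le_exp.2 h6
        linarith

/-- **The lower bound for all large `x`**, totient function -/
theorem low_all (ε : ℝ) (hε : 0 < ε) :
    ∀ᶠ x : ℝ in atTop, Real.exp (Real.log x ^ ((1 + Th) / 2 - ε)) ≤ cE Ef x := by
  wlog hε1 : ε ≤ 1 / 4 with H
  · filter_upwards [H (1 / 4) (by norm_num) le_rfl, eventually_ge_atTop (Real.exp 1)] with x hx hx1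
    have hl : 1 ≤ Real.log x := by
      rwa [Real.le_log_iff_exp_le ((Real.exp_pos 1).trans_le hx1)]
    refine le_trans (Real.exp_le_exp.2 ?_) hx
    exact Real.rpow_le_rpow_of_exponent_le hl (by linarith)
  have hTh0 := Th_ge
  rcases eq_or_lt_of_le Th_le with h | h
  · -- `Θ = 1`: multiples
    rw [h]
    have hm := mul_s (b := 1 - ε / 3) (κ := 1 - ε / 2) (by linarith) (by linarith) (by linarith) (by linarith)
    refine window_count (b := 1 - ε / 3) (C := 1) (κ := 1 - ε / 2) (c0 := 3) (by linarith) (by rw [h]; linarith)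
      zero_le_one (by norm_num) (by linarith) (by linarith) ?_
    filter_upwards [hm] with N hN hJ
    rw [one_mul] at hJ
    exact (hN hJ).trans (by exact_mod_cast cE_le _)
  · -- `Θ < 1`: deletions
    set b : ℝ := max (Th - ε) ((3 * Th - 1) / 2) with hb
    have hb1 : b < Th := max_lt (by linarith) (by linarith)
    have hb2 : Th - ε ≤ b := le_max_left _ _
    have hb3 : (3 * Th - 1) / 2 ≤ b := le_max_right _ _
    have hb0 : 0 < b := by linarith
    obtain ⟨C, hC⟩ := free_Rr (θ := Th) (Θ := (7 * Th + 1) / 8) hTh0 Th_free (by linarith) (by linarith)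
    have hd := del_f (b := b) (Θ := (7 * Th + 1) / 8) (κ := (1 + b) / 2 - ε / 4) (C := C) hb0 (by linarith)
      (by linarith) (by linarith) hC (by linarith)
    refine window_count (b := b) (C := 33) (κ := (1 + b) / 2 - ε / 4) (c0 := 2) hb0 hb1
      (by norm_num) (by norm_num) (by linarith) (by linarith) ?_
    filter_upwards [hd] with N hN hJ
    have := hN hJ
    linarith

/-- the lower bound for all large `x`, sum of divisors -/
theorem low_all_s (hTh : 1 / 2 < Th) (ε : ℝ) (hε : 0 < ε) :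
    ∀ᶠ x : ℝ in atTop, Real.exp (Real.log x ^ ((1 + Th) / 2 - ε)) ≤ cE Es x := by
  wlog hε1 : ε ≤ 1 / 4 with H
  · filter_upwards [H hTh (1 / 4) (by norm_num) le_rfl, eventually_ge_atTop (Real.exp 1)] with x hx hx1
    have hl : 1 ≤ Real.log x := by
      rwa [Real.le_log_iff_exp_le ((Real.exp_pos 1).trans_le hx1)]
    refine le_trans (Real.exp_le_exp.2 ?_) hx
    exact Real.rpow_le_rpow_of_exponent_le hl (by linarith)
  rcases eq_or_lt_of_le Th_le with h | h
  · rw [h]
    have hm := mul_s (b := 1 - ε / 3) (κ := 1 - ε / 2) (by linarith) (by linarith) (by linarith) (by linarith)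
    refine window_count (b := 1 - ε / 3) (C := 1) (κ := 1 - ε / 2) (c0 := 3) (by linarith) (by rw [h]; linarith)
      zero_le_one (by norm_num) (by linarith) (by linarith) ?_
    filter_upwards [hm] with N hN hJ
    rw [one_mul] at hJ
    exact hN hJ
  · set b : ℝ := max (max (Th - ε) ((3 * Th - 1) / 2)) ((Th + 1 / 2) / 2) with hb
    have hb1 : b < Th := max_lt (max_lt (by linarith) (by linarith)) (by linarith)
    have hb2 : Th - ε ≤ b := (le_max_left _ _).trans (le_max_left _ _)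
    have hb3 : (3 * Th - 1) / 2 ≤ b := (le_max_right _ _).trans (le_max_left _ _)
    have hb4 : (Th + 1 / 2) / 2 ≤ b := le_max_right _ _
    have hb0 : 1 / 2 < b := by linarith
    obtain ⟨C, hC⟩ := free_Rr (θ := Th) (Θ := (7 * Th + 1) / 8) hTh.le Th_free (by linarith) (by linarith)
    have hd := del_s (b := b) (Θ := (7 * Th + 1) / 8) (κ := (1 + b) / 2 - ε / 4) (C := C) hb0 (by linarith)
      (by linarith) (by linarith) hC (by linarith)
    refine window_count (b := b) (C := 33) (κ := (1 + b) / 2 - ε / 4) (c0 := 2) (by linarith) hb1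
      (by norm_num) (by norm_num) (by linarith) (by linarith) ?_
    filter_upwards [hd] with N hN hJ
    have := hN hJ
    linarith

end

end Pool.Agent.K3h56.Nic
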