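import Pool.Agent.K3h56.Nic.Star

/-!
# Gamma kernels and their tails
-/

set_option autoImplicit false

namespace Pool.Agent.K3h56.Nic

open Filter Topology MeasureTheory
open Pool.Agent.W263.BSD (LInt lap lapC)
open Pool.Agent.K3h81.RB

noncomputable section

lemma pow_LInt (j : ℕ) {w : ℝ} (hw : 0 < w) : LInt (fun u => u ^ j) w := by
  have h := LInt_pow (f := fun _ => (1 : ℝ)) measurable_const (fun _ h => one_LInt h) j hw
  simpa using h

lemma pow_lap (j : ℕ) {w : ℝ} (hw : 0 < w) :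
    ∫ u in Set.Ioi (0 : ℝ), u ^ j * Real.exp (-(w * u)) = j.factorial / w ^ (j + 1) := by
  have h := Real.integral_rpow_mul_exp_neg_mul_Ioi (a := (j : ℝ) + 1) (r := w) (by positivity) hw
  rw [add_sub_cancel_right, Real.Gamma_nat_eq_factorial] at h
  have e : ∀ u ∈ Set.Ioi (0 : ℝ), u ^ (j : ℝ) * Real.exp (-(w * u)) = u ^ j * Real.exp (-(w * u)) :=
    fun u _ => by rw [Real.rpow_natCast]
  rw [setIntegral_congr_fun measurableSet_Ioi e] at h
  rw [h]
  have : (1 / w) ^ ((j : ℝ) + 1) = 1 / w ^ (j + 1) := by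
    rw [show (j : ℝ) + 1 = ((j + 1 : ℕ) : ℝ) by push_cast; rfl, Real.rpow_natCast, one_div_pow]
  rw [this]
  ring

/-- the Gamma density -/
def kap (x : ℝ) (j : ℕ) (u : ℝ) : ℝ := x ^ (j + 1) / j.factorial * (u ^ j * Real.exp (-(x * u)))

lemma kap_nonneg {x : ℝ} (hx : 0 < x) (j : ℕ) {u : ℝ} (hu : 0 ≤ u) : 0 ≤ kap x j u := by
  unfold kap
  positivity

lemma kap_meas (x : ℝ) (j : ℕ) : Measurable (kap x j) := by
  unfold kap
  fun_prop

/-- exponential tilting -/
lemma kap_tilt {x s : ℝ} (_hx : 0 < x) (hs : s < x) (j : ℕ) :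
    IntegrableOn (fun u => Real.exp (s * u) * kap x j u) (Set.Ioi 0) ∧
      ∫ u in Set.Ioi 0, Real.exp (s * u) * kap x j u = (x / (x - s)) ^ (j + 1) := by
  have e : ∀ u : ℝ, Real.exp (s * u) * kap x j u =
      x ^ (j + 1) / j.factorial * (u ^ j * Real.exp (-((x - s) * u))) := by
    intro u
    unfold kap
    have : Real.exp (-((x - s) * u)) = Real.exp (s * u) * Real.exp (-(x * u)) := by
      rw [← Real.exp_add]; congr 1; ring
    rw [this]
    ring
  have hxs : 0 < x - s := by linarith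
  simp only [e]
  have hI : IntegrableOn (fun u => u ^ j * Real.exp (-((x - s) * u))) (Set.Ioi 0) := pow_LInt j hxs
  refine ⟨hI.const_mul _, ?_⟩
  rw [integral_const_mul, pow_lap j hxs, div_pow]
  have : (j.factorial : ℝ) ≠ 0 := by positivity
  field_simp

lemma kap_int {x : ℝ} (hx : 0 < x) (j : ℕ) : IntegrableOn (kap x j) (Set.Ioi 0) := by
  have h := (kap_tilt hx (s := 0) hx j).1
  simpa using h

lemma kap_succ {x : ℝ} (j : ℕ) (u : ℝ) : kap x (j + 1) u = x * u / (j + 1) * kap x j u := by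
  unfold kap
  rw [Nat.factorial_succ]
  push_cast
  have : (j.factorial : ℝ) ≠ 0 := by positivity
  have : (j : ℝ) + 1 ≠ 0 := by positivity
  field_simp
  ring

lemma one_div_add_le {d : ℝ} (hd : 0 ≤ d) : 1 / (1 + d) ≤ Real.exp (-(d - d ^ 2 / 2)) := by
  have h1 := Real.le_log_one_add_of_nonneg hd
  have h2 : d - d ^ 2 / 2 ≤ 2 * d / (d + 2) := by
    rw [le_div_iff₀ (by positivity)]
    nlinarith [pow_nonneg hd 3]
  have h3 : d - d ^ 2 / 2 ≤ Real.log (1 + d) := h2.trans h1
  have h4 : (1 : ℝ) / (1 + d) = Real.exp (-Real.log (1 + d)) := by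
    rw [Real.exp_neg, Real.exp_log (by positivity), one_div]
  rw [h4]
  exact Real.exp_le_exp.2 (by linarith)

lemma one_div_sub_le {s : ℝ} (hs : s ≤ 1 / 2) : 1 / (1 - s) ≤ Real.exp (s + 2 * s ^ 2) := by
  have h0 : 0 < 1 - s := by linarith
  have h1 := Real.one_sub_inv_le_log_of_pos h0
  have h2 : (1 - s)⁻¹ ≤ 1 + s + 2 * s ^ 2 := by
    rw [inv_eq_one_div, div_le_iff₀ h0]
    nlinarith [mul_nonneg (sq_nonneg s) (show 0 ≤ 1 - 2 * s by linarith)]
  have h4 : (1 : ℝ) / (1 - s) = Real.exp (-Real.log (1 - s)) := by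
    rw [Real.exp_neg, Real.exp_log h0, one_div]
  rw [h4]
  exact Real.exp_le_exp.2 (by linarith)

/-- the window -/
def WW (x d : ℝ) (n : ℕ) : Set ℝ := Set.Icc ((1 - d) * n / x) ((1 + d) * n / x)

lemma WW_meas (x d : ℝ) (n : ℕ) : MeasurableSet (WW x d n) := measurableSet_Icc

/-- the tails of the kernels -/
lemma kap_tail {x d : ℝ} (hx : 0 < x) (hd0 : 0 < d) (hd : d ≤ 1) {n j : ℕ} (hj : n ≤ j) (hj2 : j ≤ n + 2) :
    ∫ u in Set.Ioi 0, (WW x d n)ᶜ.indicator (kap x j) u ≤ 9 * Real.exp (-(n * (d ^ 2 / 8))) := by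
  set s : ℝ := d / 4 with hs
  have hs0 : 0 < s := by positivity
  have hs1 : s ≤ 1 / 4 := by rw [hs]; linarith
  obtain ⟨i1, v1⟩ := kap_tilt (x := x) (s := -(d * x)) hx (by nlinarith) j
  obtain ⟨i2, v2⟩ := kap_tilt (x := x) (s := s * x) hx (by nlinarith) j
  have hi : IntegrableOn (fun u => (WW x d n)ᶜ.indicator (kap x j) u) (Set.Ioi 0) :=
    (kap_int hx j).indicator (WW_meas x d n).compl
  have hpt : ∀ u ∈ Set.Ioi (0 : ℝ), (WW x d n)ᶜ.indicator (kap x j) u ≤
      Real.exp (d * (1 - d) * n) * (Real.exp (-(d * x) * u) * kap x j u) +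
      Real.exp (-(s * (1 + d) * n)) * (Real.exp (s * x * u) * kap x j u) := by
    intro u hu
    have hu0 : 0 < u := hu
    have hk := kap_nonneg hx j hu0.le
    have p1 : 0 ≤ Real.exp (d * (1 - d) * n) * (Real.exp (-(d * x) * u) * kap x j u) := by positivity
    have p2 : 0 ≤ Real.exp (-(s * (1 + d) * n)) * (Real.exp (s * x * u) * kap x j u) := by positivity
    by_cases h : u ∈ WW x d n
    · rw [Set.indicator_of_notMem (by simpa using h)]; linarith
    · rw [Set.indicator_of_mem (by simpa using h)]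
      unfold WW at h
      rw [Set.mem_Icc, not_and_or, not_le, not_le] at h
      rcases h with h | h
      · rw [lt_div_iff₀ hx] at h
        have h1 : 1 ≤ Real.exp (d * (1 - d) * n) * Real.exp (-(d * x) * u) := by
          rw [← Real.exp_add]
          apply Real.one_le_exp
          nlinarith
        have h2 := mul_le_mul_of_nonneg_right h1 hk
        rw [one_mul] at h2
        linarith [h2, mul_assoc (Real.exp (d * (1 - d) * n)) (Real.exp (-(d * x) * u)) (kap x j u)]
      · rw [div_lt_iff₀ hx] at h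
        have h1 : 1 ≤ Real.exp (-(s * (1 + d) * n)) * Real.exp (s * x * u) := by
          rw [← Real.exp_add]
          apply Real.one_le_exp
          nlinarith
        have h2 := mul_le_mul_of_nonneg_right h1 hk
        rw [one_mul] at h2
        linarith [h2, mul_assoc (Real.exp (-(s * (1 + d) * n))) (Real.exp (s * x * u)) (kap x j u)]
  refine (setIntegral_mono_on hi ((i1.const_mul _).add (i2.const_mul _)) measurableSet_Ioi hpt).trans ?_
  have e1 : x / (x - -(d * x)) = 1 / (1 + d) := by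
    rw [show x - -(d * x) = x * (1 + d) by ring]
    rw [div_mul_eq_div_div, div_self hx.ne']
  have e2 : x / (x - s * x) = 1 / (1 - s) := by
    rw [show x - s * x = x * (1 - s) by ring]
    rw [div_mul_eq_div_div, div_self hx.ne']
  rw [show (∫ u in Set.Ioi (0 : ℝ), ((fun u => Real.exp (d * (1 - d) * n) * (Real.exp (-(d * x) * u) * kap x j u)) +
      fun u => Real.exp (-(s * (1 + d) * n)) * (Real.exp (s * x * u) * kap x j u)) u) =
      ∫ u in Set.Ioi (0 : ℝ), (Real.exp (d * (1 - d) * n) * (Real.exp (-(d * x) * u) * kap x j u) +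
      Real.exp (-(s * (1 + d) * n)) * (Real.exp (s * x * u) * kap x j u)) from rfl,
    integral_add (i1.const_mul _) (i2.const_mul _), integral_const_mul, integral_const_mul, v1, v2, e1, e2]
  have hn : (0 : ℝ) ≤ n := Nat.cast_nonneg n
  -- the first tail
  have t1 : Real.exp (d * (1 - d) * n) * (1 / (1 + d)) ^ (j + 1) ≤ Real.exp (-(n * (d ^ 2 / 8))) := by
    have h1 : (1 / (1 + d)) ^ (j + 1) ≤ (1 / (1 + d)) ^ n := by
      refine pow_le_pow_of_le_one (by positivity) ?_ (by omega)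
      rw [div_le_one (by positivity)]
      linarith
    have h2 : (1 / (1 + d)) ^ n ≤ Real.exp (-(d - d ^ 2 / 2)) ^ n :=
      pow_le_pow_left₀ (by positivity) (one_div_add_le hd0.le) n
    rw [← Real.exp_nat_mul] at h2
    calc _ ≤ Real.exp (d * (1 - d) * n) * Real.exp (n * -(d - d ^ 2 / 2)) :=
          mul_le_mul_of_nonneg_left (h1.trans h2) (Real.exp_pos _).le
      _ = Real.exp (-(n * (d ^ 2 / 2))) := by rw [← Real.exp_add]; congr 1; ring
      _ ≤ _ := by
          apply Real.exp_le_exp.2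
          nlinarith [mul_nonneg hn (sq_nonneg d)]
  -- the second tail
  have t2 : Real.exp (-(s * (1 + d) * n)) * (1 / (1 - s)) ^ (j + 1) ≤ 8 * Real.exp (-(n * (d ^ 2 / 8))) := by
    have h1s : 1 ≤ 1 / (1 - s) := by
      rw [le_div_iff₀ (by linarith)]
      linarith
    have h2s : 1 / (1 - s) ≤ 2 := by
      rw [div_le_iff₀ (by linarith)]
      linarith
    have h1 : (1 / (1 - s)) ^ (j + 1) ≤ (1 / (1 - s)) ^ (n + 3) :=
      pow_le_pow_right₀ h1s (by omega)
    have h3 : (1 / (1 - s)) ^ (n + 3) ≤ Real.exp (s + 2 * s ^ 2) ^ n * 8 := by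
      rw [pow_add]
      refine mul_le_mul (pow_le_pow_left₀ (by positivity) (one_div_sub_le (by linarith)) n) ?_
        (by positivity) (by positivity)
      calc (1 / (1 - s)) ^ 3 ≤ 2 ^ 3 := pow_le_pow_left₀ (by positivity) h2s 3
        _ = 8 := by norm_num
    rw [← Real.exp_nat_mul] at h3
    calc _ ≤ Real.exp (-(s * (1 + d) * n)) * (Real.exp (n * (s + 2 * s ^ 2)) * 8) :=
          mul_le_mul_of_nonneg_left (h1.trans h3) (Real.exp_pos _).le
      _ = 8 * Real.exp (-(n * (s * d - 2 * s ^ 2))) := by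
          rw [← mul_assoc, ← Real.exp_add, mul_comm]; congr 2; ring
      _ = _ := by
          congr 2
          rw [hs]
          ring_nf
  linarith

end

end Pool.Agent.K3h56.Nic
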