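import Pool.Agent.K3h56.Nic.Fin
import Pool.Agent.K3h81.RB.Up2
import Pool.Agent.K3h81.RB.Rh

/-!
# The limit
-/

set_option autoImplicit false

namespace Pool.Agent.K3h56.Nic

open Filter Topology MeasureTheory
open Pool.Agent.K3h81.RB

noncomputable section

/-- from bounds to the limit -/
theorem lim_of {P : ℕ → Prop} {κ : ℝ} (hP : ∀ x : ℝ, 3 ≤ x → 3 ≤ cE P x)
    (hup : ∀ ε : ℝ, 0 < ε → ∀ᶠ x : ℝ in atTop, (cE P x : ℝ) ≤ Real.exp (Real.log x ^ (κ + ε)))
    (hlow : ∀ ε : ℝ, 0 < ε → ∀ᶠ x : ℝ in atTop, Real.exp (Real.log x ^ (κ - ε)) ≤ cE P x) :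
    Tendsto (fun x : ℝ => Real.log (Real.log (cE P x)) / Real.log (Real.log x)) atTop (𝓝 κ) := by
  have hll : ∀ᶠ x : ℝ in atTop, 3 ≤ x ∧ 1 ≤ Real.log x ∧ 1 ≤ Real.log (Real.log x) := by
    filter_upwards [eventually_ge_atTop 3, Real.tendsto_log_atTop.eventually_ge_atTop 1,
      (Real.tendsto_log_atTop.comp Real.tendsto_log_atTop).eventually_ge_atTop 1] with x h1 h2 h3
    exact ⟨h1, h2, h3⟩
  rw [Metric.tendsto_nhds]
  intro ε hε
  have hε2 : 0 < ε / 2 := by linarith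
  filter_upwards [hup (ε / 2) hε2, hlow (ε / 2) hε2, hll] with x hx1 hx2 ⟨h1, h2, h3⟩
  have hNp : (0 : ℝ) < cE P x := by
    have := hP x h1
    exact_mod_cast (by omega : 0 < cE P x)
  have hN1 : 1 < Real.log (cE P x) := by
    have h3l : 1 < Real.log 3 := by
      rw [Real.lt_log_iff_exp_lt (by norm_num)]
      linarith [Real.exp_one_lt_d9]
    refine h3l.trans_le (Real.log_le_log (by norm_num) ?_)
    exact_mod_cast hP x h1
  have hl0 : 0 < Real.log (Real.log x) := by linarith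
  have u1 : Real.log (Real.log (cE P x)) / Real.log (Real.log x) ≤ κ + ε / 2 := by
    rw [div_le_iff₀ hl0]
    have h4 : Real.log (cE P x) ≤ Real.log x ^ (κ + ε / 2) := by
      have := Real.log_le_log hNp hx1
      rwa [Real.log_exp] at this
    have h5 := Real.log_le_log (by linarith) h4
    rwa [Real.log_rpow (by linarith)] at h5
  have u2 : κ - ε / 2 ≤ Real.log (Real.log (cE P x)) / Real.log (Real.log x) := by
    rw [le_div_iff₀ hl0]
    have h4 : Real.log x ^ (κ - ε / 2) ≤ Real.log (cE P x) := by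
      have := Real.log_le_log (Real.exp_pos _) hx2
      rwa [Real.log_exp] at this
    have h5 := Real.log_le_log (by positivity) h4
    rwa [Real.log_rpow (by linarith)] at h5
  rw [Real.dist_eq, abs_lt]
  constructor <;> linarith

theorem lim_f : Tendsto (fun x : ℝ => Real.log (Real.log (cE Ef x)) / Real.log (Real.log x)) atTop
    (𝓝 ((1 + Th) / 2)) :=
  lim_of (fun x hx => (three_le_cE hx).trans (cE_le x)) (up_Th (fun _ => le_rfl)) low_all

theorem lim_s (h : 1 / 2 < Th) :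
    Tendsto (fun x : ℝ => Real.log (Real.log (cE Es x)) / Real.log (Real.log x)) atTop
    (𝓝 ((1 + Th) / 2)) :=
  lim_of (fun _ hx => three_le_cE hx) (up_Th cE_le) (low_all_s h)

/-- a bound for arbitrarily large `x` bounds the supremum -/
theorem Th_le_of_freq {P : ℕ → Prop} {κ : ℝ}
    (hlow : ∀ ε : ℝ, 0 < ε → ∀ᶠ x : ℝ in atTop, Real.exp (Real.log x ^ ((1 + Th) / 2 - ε)) ≤ cE P x)
    (h : ∃ᶠ x : ℝ in atTop, (cE P x : ℝ) ≤ Real.exp (Real.log x ^ κ)) : (1 + Th) / 2 ≤ κ := by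
  by_contra hcon
  rw [not_le] at hcon
  set ε : ℝ := ((1 + Th) / 2 - κ) / 2 with hε
  have hε0 : 0 < ε := by rw [hε]; linarith
  obtain ⟨x, hx1, hx2, hx3⟩ := (h.and_eventually ((hlow ε hε0).and
    (Real.tendsto_log_atTop.eventually_gt_atTop 1))).exists
  have h1 := Real.exp_le_exp.1 (hx2.trans hx1)
  have h2 := (Real.rpow_le_rpow_left_iff hx3).1 h1
  rw [hε] at h2
  linarith

theorem free_of_Th {θ : ℝ} (h : Th ≤ θ) (s : ℂ) (hs : θ < s.re) : riemannZeta s ≠ 0 :=
  Th_free s (lt_of_le_of_lt h hs)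

theorem Th_le_of_free {θ : ℝ} (h : ∀ s : ℂ, θ < s.re → riemannZeta s ≠ 0) : Th ≤ θ := by
  by_contra hcon
  exact not_free_of_lt (not_le.1 hcon) h

end

end Pool.Agent.K3h56.Nic
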