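import Pool.Agent.K3h56.Nic.TriC
import Pool.Agent.K3h81.RB.Lan2

/-!
# Moments: derivatives of Laplace transforms
-/

set_option autoImplicit false

namespace Pool.Agent.K3h56.Nic

open Filter Topology MeasureTheory
open Pool.Agent.W263.BSD (LInt lap lapC)
open Pool.Agent.W66 (Z1 DD)
open Pool.Agent.K3h81.RB

noncomputable section

/-- `v ^ n e^{-s v} ≤ n! / s ^ n` -/
lemma pow_exp_le {s v : ℝ} (hs : 0 < s) (hv : 0 ≤ v) (n : ℕ) :
    v ^ n * Real.exp (-(s * v)) ≤ n.factorial / s ^ n := by
  have h1 := Real.pow_div_factorial_le_exp (s * v) (by positivity) n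
  have hf : (0 : ℝ) < n.factorial := by positivity
  rw [mul_pow, div_le_iff₀ hf] at h1
  rw [le_div_iff₀ (by positivity), Real.exp_neg]
  have he := Real.exp_pos (s * v)
  have e : v ^ n * (Real.exp (s * v))⁻¹ * s ^ n = s ^ n * v ^ n / Real.exp (s * v) := by
    rw [div_eq_mul_inv]; ring
  rw [e, div_le_iff₀ he]
  linarith

lemma exp_split (w v : ℝ) : Real.exp (-(w * v)) = Real.exp (-(w / 2 * v)) * Real.exp (-(w / 2 * v)) := by
  rw [← Real.exp_add]
  congr 1
  ring

lemma LInt_pow {f : ℝ → ℝ} (hf : Measurable f) (h : ∀ w : ℝ, 0 < w → LInt f w) (n : ℕ) {w : ℝ}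
    (hw : 0 < w) : LInt (fun v => v ^ n * f v) w := by
  have h1 := h (w / 2) (by linarith)
  unfold Pool.Agent.W263.BSD.LInt IntegrableOn at *
  refine Integrable.mono' (h1.norm.const_mul (n.factorial / (w / 2) ^ n)) ?_ ?_
  · exact (((measurable_id.pow_const n).mul hf).mul (by fun_prop)).aestronglyMeasurable
  · filter_upwards [ae_restrict_mem measurableSet_Ioi] with v hv
    have hv0 : 0 < v := hv
    have h2 := pow_exp_le (show 0 < w / 2 by linarith) hv0.le n
    have e : ‖v ^ n * f v * Real.exp (-(w * v))‖ =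
        (v ^ n * Real.exp (-(w / 2 * v))) * ‖f v * Real.exp (-(w / 2 * v))‖ := by
      rw [exp_split, norm_mul, norm_mul, norm_mul, norm_mul, norm_pow,
        Real.norm_of_nonneg hv0.le, Real.norm_of_nonneg (Real.exp_pos _).le]
      ring
    rw [e]
    exact mul_le_mul_of_nonneg_right h2 (norm_nonneg _)

lemma lapC_deriv {f : ℝ → ℝ} (hf : Measurable f) (h : ∀ w : ℝ, 0 < w → LInt f w) {z : ℂ}
    (hz : 0 < z.re) : HasDerivAt (lapC f) (-lapC (fun v => v * f v) z) z := by
  have hb : Integrable (fun v => ‖v ^ 1 * f v * Real.exp (-(z.re / 2 * v))‖)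
      (volume.restrict (Set.Ioi 0)) := (LInt_pow hf h 1 (show 0 < z.re / 2 by linarith)).norm
  have hs : {w : ℂ | z.re / 2 < w.re} ∈ 𝓝 z := by
    refine (isOpen_lt continuous_const Complex.continuous_re).mem_nhds ?_
    show z.re / 2 < z.re
    linarith
  have hmeas : ∀ w : ℂ, AEStronglyMeasurable (fun v : ℝ => (f v : ℂ) * Complex.exp (-(w * v)))
      (volume.restrict (Set.Ioi 0)) := fun w =>
    ((Complex.measurable_ofReal.comp hf).mul (by fun_prop)).aestronglyMeasurable
  have key := hasDerivAt_integral_of_dominated_loc_of_deriv_le (μ := volume.restrict (Set.Ioi (0 : ℝ)))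
    (F := fun (w : ℂ) (v : ℝ) => (f v : ℂ) * Complex.exp (-(w * v)))
    (F' := fun (w : ℂ) (v : ℝ) => -((f v : ℂ) * v * Complex.exp (-(w * v))))
    (x₀ := z) (s := {w : ℂ | z.re / 2 < w.re})
    (bound := fun v => ‖v ^ 1 * f v * Real.exp (-(z.re / 2 * v))‖) hs
    (Eventually.of_forall hmeas) (Pool.Agent.W263.BSD.LInt.complex hf (h _ hz)) ?_ ?_ hb ?_
  · have h1 := key.2
    refine h1.congr_deriv ?_
    unfold Pool.Agent.W263.BSD.lapC
    rw [← integral_neg]
    refine integral_congr_ae (Eventually.of_forall fun v => ?_)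
    simp only [Complex.ofReal_mul]
    ring
  · exact (((Complex.measurable_ofReal.comp hf).mul Complex.measurable_ofReal).mul
      (by fun_prop)).neg.aestronglyMeasurable
  · filter_upwards [ae_restrict_mem measurableSet_Ioi] with v hv w hw
    have hv0 : 0 < v := hv
    have hw' : z.re / 2 < w.re := hw
    rw [norm_neg, norm_mul, norm_mul, Complex.norm_exp, Complex.norm_real, Complex.norm_real,
      norm_mul, norm_mul, pow_one, Real.norm_of_nonneg (Real.exp_pos (-(z.re / 2 * v))).le,
      mul_comm ‖f v‖ ‖v‖]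
    refine mul_le_mul_of_nonneg_left (Real.exp_le_exp.2 ?_) (by positivity)
    simp only [Complex.neg_re, Complex.mul_re, Complex.ofReal_re, Complex.ofReal_im, mul_zero, sub_zero]
    have := mul_le_mul_of_nonneg_right hw'.le hv0.le
    linarith
  · refine Eventually.of_forall fun v w _ => ?_
    have h1 : HasDerivAt (fun w : ℂ => -(w * v)) (-(1 * (v : ℂ))) w := ((hasDerivAt_id w).mul_const _).neg
    have h2 := (h1.cexp).const_mul (f v : ℂ)
    refine h2.congr_deriv ?_
    ring

lemma iter_lapC {f : ℝ → ℝ} (hf : Measurable f) (h : ∀ w : ℝ, 0 < w → LInt f w) (n : ℕ) :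
    ∀ z : ℂ, 0 < z.re → iteratedDeriv n (lapC f) z = (-1) ^ n * lapC (fun v => v ^ n * f v) z := by
  induction n with
  | zero =>
    intro z hz
    simp
  | succ n ih =>
    intro z hz
    rw [iteratedDeriv_succ]
    have h1 : iteratedDeriv n (lapC f) =ᶠ[𝓝 z] fun w => (-1) ^ n * lapC (fun v => v ^ n * f v) w := by
      filter_upwards [(isOpen_lt continuous_const Complex.continuous_re).mem_nhds hz] with w hw
      exact ih w hw
    rw [h1.deriv_eq]
    have h2 := (lapC_deriv (f := fun v => v ^ n * f v) ((measurable_id.pow_const n).mul hf)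
      (fun w hw => LInt_pow hf h n hw) hz).const_mul ((-1 : ℂ) ^ n)
    rw [h2.deriv, pow_succ]
    have e : (fun v : ℝ => v * (v ^ n * f v)) = fun v => v ^ (n + 1) * f v := by
      funext v; ring
    rw [e]
    ring

/-- the moments of `ru` -/
def IM (n : ℕ) (z : ℂ) : ℂ := lapC (fun v => v ^ n * ru v) z

/-- the moments of `kk` -/
def BM (n : ℕ) (z : ℂ) : ℂ := lapC (fun u => u ^ n * kk u) z

lemma ru_LInt {w : ℝ} (hw : 0 < w) : LInt ru w := ru_exp_int hw.le

lemma IM_eq {n : ℕ} {z : ℂ} (hz : 0 < z.re) : iteratedDeriv n (lapC ru) z = (-1) ^ n * IM n z :=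
  iter_lapC ru_meas (fun _ hw => ru_LInt hw) n z hz

/-- the Laplace transform of `ru` on the half-plane `Re z > 0` -/
lemma lapC_ru {z : ℂ} (hz : 0 < z.re) : lapC ru z = Phc z := by
  set H : Set ℂ := {w | 0 < w.re} with hH
  have hHo : IsOpen H := isOpen_lt continuous_const Complex.continuous_re
  have hHc : IsPreconnected H := (convex_halfSpace_re_gt 0).isPreconnected
  have hsub : H ⊆ UU := by
    intro w hw
    have hw' : 0 < w.re := hw
    constructor
    · intro h
      have := congrArg Complex.re h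
      simp only [Complex.add_re, Complex.one_re, Complex.zero_re] at this
      linarith
    · refine Pool.Agent.W66.Z1_ne_zero ?_
      simp only [Complex.add_re, Complex.one_re]
      linarith
  have h1 : AnalyticOnNhd ℂ (lapC ru) H := DifferentiableOn.analyticOnNhd
    (fun w hw => (lapC_deriv ru_meas (fun _ h => ru_LInt h) hw).differentiableAt.differentiableWithinAt) hHo
  have h2 : AnalyticOnNhd ℂ Phc H := DifferentiableOn.analyticOnNhd (Phc_diff.mono hsub) hHo
  refine AnalyticOnNhd.eqOn_of_preconnected_of_frequently_eq (z₀ := 1) h1 h2 hHc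
      (by show (0 : ℝ) < (1 : ℂ).re; simp) ?_ hz
  have h3 : Tendsto (fun n : ℕ => (((1 : ℝ) + 1 / ((n : ℝ) + 1) : ℝ) : ℂ)) atTop (𝓝[≠] 1) := by
    rw [tendsto_nhdsWithin_iff]
    constructor
    · have h2 : Tendsto (fun n : ℕ => (1 : ℝ) + 1 / ((n : ℝ) + 1)) atTop (𝓝 (1 + 0)) :=
        tendsto_one_div_add_atTop_nhds_zero_nat.const_add 1
      have h3 : Tendsto (fun n : ℕ => (((1 : ℝ) + 1 / ((n : ℝ) + 1) : ℝ) : ℂ)) atTop
          (𝓝 (((1 : ℝ) + 0 : ℝ) : ℂ)) := (Complex.continuous_ofReal.tendsto _).comp h2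
      rwa [add_zero, Complex.ofReal_one] at h3
    · refine Eventually.of_forall fun n => ?_
      simp only [Set.mem_compl_iff, Set.mem_singleton_iff]
      intro h
      have h2 : (1 : ℝ) + 1 / ((n : ℝ) + 1) = 1 := by exact_mod_cast h
      have h3 : 0 < 1 / ((n : ℝ) + 1) := by positivity
      linarith
  refine h3.frequently (Eventually.frequently (Eventually.of_forall fun n => ?_))
  set w : ℝ := (1 : ℝ) + 1 / ((n : ℝ) + 1) with hw
  have hw0 : 0 < w := by positivity
  rw [Pool.Agent.W263.BSD.lapC_ofReal, ← Phi_eq hw0]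
  rfl

/-- Taylor coefficients of the transform -/
lemma IM_Phc {n : ℕ} {z : ℂ} (hz : 0 < z.re) : iteratedDeriv n Phc z = (-1) ^ n * IM n z := by
  rw [← IM_eq hz]
  have h1 : Phc =ᶠ[𝓝 z] lapC ru := by
    filter_upwards [(isOpen_lt continuous_const Complex.continuous_re).mem_nhds hz] with w hw
    exact (lapC_ru hw).symm
  exact (h1.iteratedDeriv_eq n)

/-- Cauchy's estimate -/
lemma IM_le {z : ℂ} (hz : 0 < z.re) {R : ℝ} (hR : 0 < R) (hU : Metric.closedBall z R ⊆ UU) :
    ∃ M : ℝ, 0 ≤ M ∧ ∀ n : ℕ, ‖IM n z‖ ≤ n.factorial * M / R ^ n := by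
  have hc : ContinuousOn Phc (Metric.sphere z R) :=
    (Phc_diff.continuousOn).mono (Metric.sphere_subset_closedBall.trans hU)
  obtain ⟨M, hM⟩ := (isCompact_sphere z R).exists_bound_of_continuousOn hc
  refine ⟨max M 0, le_max_right _ _, fun n => ?_⟩
  have h1 : DiffContOnCl ℂ Phc (Metric.ball z R) := by
    refine DifferentiableOn.diffContOnCl ?_
    exact Phc_diff.mono (Metric.closure_ball_subset_closedBall.trans hU)
  have h2 := Complex.norm_iteratedDeriv_le_of_forall_mem_sphere_norm_le n hR h1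
    (fun w hw => (hM w hw).trans (le_max_left M 0))
  rw [IM_Phc hz, norm_mul, norm_pow, norm_neg, norm_one, one_pow, one_mul] at h2
  exact h2

end

end Pool.Agent.K3h56.Nic
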