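import Pool.Agent.K3h56.Nic.Mom

/-!
# The moments of the integral `kk`
-/

set_option autoImplicit false

namespace Pool.Agent.K3h56.Nic

open Filter Topology MeasureTheory
open Pool.Agent.W263.BSD (LInt lap lapC)
open Pool.Agent.W66 (Z1 DD)
open Pool.Agent.K3h81.RB

noncomputable section

lemma int_sq {u : ℝ} (hu : 0 < u) : IntegrableOn (fun v : ℝ => 1 / v ^ 2) (Set.Ioi u) ∧
    ∫ v in Set.Ioi u, 1 / v ^ 2 = 1 / u := by
  have e : ∀ v ∈ Set.Ioi u, v ^ (-2 : ℝ) = 1 / v ^ 2 := fun v hv => by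
    have hv0 : 0 < v := lt_trans hu hv
    rw [Real.rpow_neg hv0.le, one_div]
    norm_cast
  have h := integrableOn_Ioi_rpow_of_lt (show (-2 : ℝ) < -1 by norm_num) hu
  refine ⟨h.congr_fun e measurableSet_Ioi, ?_⟩
  rw [← setIntegral_congr_fun measurableSet_Ioi e, integral_Ioi_rpow_of_lt (by norm_num) hu]
  norm_num
  rw [Real.rpow_neg_one]

lemma g_bound : ∃ C : ℝ, 0 < C ∧ ∀ v : ℝ, 0 < v → |ru v * ((1 + v) / v ^ 2)| ≤ C / v ^ 2 := by
  obtain ⟨C, hC, h1, h2⟩ := ru_bound
  refine ⟨2 * C, by positivity, fun v hv => ?_⟩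
  rw [abs_mul, abs_of_pos (show 0 < (1 + v) / v ^ 2 by positivity)]
  rcases le_or_gt v 1 with h | h
  · have h3 := h2 v hv.le
    calc |ru v| * ((1 + v) / v ^ 2) ≤ C * ((1 + 1) / v ^ 2) := by gcongr
      _ = _ := by ring
  · have h3 := h1 v h.le
    have h4 : |ru v| * (1 + v) ≤ 2 * C := by
      calc |ru v| * (1 + v) ≤ C / v ^ 3 * (2 * v) := by
            refine mul_le_mul h3 (by linarith) (by positivity) (by positivity)
        _ = 2 * C * (1 / v ^ 2) := by field_simp
        _ ≤ 2 * C * 1 := by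
            refine mul_le_mul_of_nonneg_left ?_ (by positivity)
            rw [div_le_one (by positivity)]
            nlinarith
        _ = _ := by ring
    calc |ru v| * ((1 + v) / v ^ 2) = (|ru v| * (1 + v)) / v ^ 2 := by ring
      _ ≤ _ := by gcongr

lemma kk_bound : ∃ C : ℝ, 0 < C ∧ ∀ u : ℝ, 0 < u → |kk u| ≤ C / u := by
  obtain ⟨C, hC, h⟩ := g_bound
  refine ⟨C, hC, fun u hu => ?_⟩
  obtain ⟨i1, i2⟩ := int_sq hu
  unfold kk
  calc |∫ v in Set.Ioi u, ru v * ((1 + v) / v ^ 2)| ≤ ∫ v in Set.Ioi u, |ru v * ((1 + v) / v ^ 2)| :=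
        abs_integral_le_integral_abs
    _ ≤ ∫ v in Set.Ioi u, C * (1 / v ^ 2) := by
        refine setIntegral_mono_on (ruq_int hu).abs (i1.const_mul C) measurableSet_Ioi fun v hv => ?_
        have := h v (lt_trans hu hv)
        calc _ ≤ C / v ^ 2 := this
          _ = _ := by ring
    _ = C / u := by rw [integral_const_mul, i2]; ring

lemma kk_meas : Measurable kk := by
  have hq : Measurable fun v => ru v * ((1 + v) / v ^ 2) := ru_meas.mul (by fun_prop)
  have h1 : StronglyMeasurable (fun u : ℝ => ∫ v : ℝ, (if u < v then ru v * ((1 + v) / v ^ 2) else 0)) := by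
    refine StronglyMeasurable.integral_prod_right
      (f := fun u v : ℝ => if u < v then ru v * ((1 + v) / v ^ 2) else 0) ?_
    refine Measurable.stronglyMeasurable ?_
    exact Measurable.ite (measurableSet_lt measurable_fst measurable_snd)
      (hq.comp measurable_snd) measurable_const
  have h2 : kk = fun u : ℝ => ∫ v : ℝ, (if u < v then ru v * ((1 + v) / v ^ 2) else 0) := by
    funext u
    unfold kk
    rw [← integral_indicator measurableSet_Ioi]
    rfl
  rw [h2]
  exact h1.measurable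

lemma one_LInt {w : ℝ} (hw : 0 < w) : LInt (fun _ => (1 : ℝ)) w := by
  unfold Pool.Agent.W263.BSD.LInt
  simp only [one_mul]
  exact exp_int_w hw

lemma ukk_LInt {w : ℝ} (hw : 0 < w) : LInt (fun u => u * kk u) w := by
  obtain ⟨C, hC, h⟩ := kk_bound
  unfold Pool.Agent.W263.BSD.LInt
  refine Integrable.mono' ((exp_int_w hw).const_mul C)
    (((measurable_id.mul kk_meas).mul (by fun_prop)).aestronglyMeasurable) ?_
  filter_upwards [ae_restrict_mem measurableSet_Ioi] with u hu
  have hu0 : 0 < u := hu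
  rw [norm_mul, norm_mul, Real.norm_of_nonneg hu0.le, Real.norm_of_nonneg (Real.exp_pos _).le,
    Real.norm_eq_abs]
  refine mul_le_mul_of_nonneg_right ?_ (Real.exp_pos _).le
  have := h u hu0
  rw [le_div_iff₀ hu0] at this
  linarith

lemma kk_LInt {j : ℕ} (hj : 1 ≤ j) {w : ℝ} (hw : 0 < w) : LInt (fun u => u ^ j * kk u) w := by
  have h := LInt_pow (f := fun u => u * kk u) (measurable_id.mul kk_meas) (fun _ h => ukk_LInt h) (j - 1) hw
  have e : (fun v : ℝ => v ^ (j - 1) * (v * kk v)) = fun u => u ^ j * kk u := by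
    funext v
    rw [← mul_assoc, ← pow_succ, Nat.sub_add_cancel hj]
  rwa [e] at h

/-- **The moments of `kk` from the moments of `ru`.** -/
theorem star (n : ℕ) {z : ℂ} (hz : 0 < z.re) :
    IM n z + IM (n + 1) z = ((n : ℂ) + 2) * BM (n + 1) z - z * BM (n + 2) z := by
  set x := z.re with hx
  -- the kernel
  set m : ℝ → ℂ := fun u => (u : ℂ) ^ (n + 1) * (((n : ℂ) + 2) - z * u) * Complex.exp (-(z * u)) with hm
  set Mv : ℝ → ℂ := fun v => (v : ℂ) ^ (n + 2) * Complex.exp (-(z * v)) with hMv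
  set K : ℝ := (((n : ℝ) + 2) * (n.factorial / x ^ n) + (((n : ℝ) + 2) + ‖z‖) * ((n + 1).factorial / x ^ (n + 1)) +
    ‖z‖ * ((n + 2).factorial / x ^ (n + 2))) with hK
  have hK0 : 0 ≤ K := by positivity
  set m' : ℝ → ℝ := fun u => K * ((2 * u + u ^ 2) / (1 + u) ^ 2) with hm'
  set M' : ℝ → ℝ := fun v => K * (v ^ 2 / (1 + v)) with hM'
  have hle : ∀ u : ℝ, 0 < u → ‖m u‖ ≤ m' u := by
    intro u hu
    have he : ‖Complex.exp (-(z * u))‖ = Real.exp (-(x * u)) := by
      rw [Complex.norm_exp]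
      congr 1
      simp [hx]
    have h1 : ‖m u‖ ≤ u ^ (n + 1) * (((n : ℝ) + 2) + ‖z‖ * u) * Real.exp (-(x * u)) := by
      rw [hm]
      simp only
      rw [norm_mul, norm_mul, he, norm_pow, Complex.norm_real, Real.norm_of_nonneg hu.le]
      refine mul_le_mul_of_nonneg_right (mul_le_mul_of_nonneg_left ?_ (by positivity)) (Real.exp_pos _).le
      refine (norm_sub_le _ _).trans (add_le_add ?_ ?_)
      · have : ((n : ℂ) + 2) = (((n : ℝ) + 2 : ℝ) : ℂ) := by push_cast; rfl
        rw [this, Complex.norm_real, Real.norm_of_nonneg (by positivity)]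
      · rw [norm_mul, Complex.norm_real, Real.norm_of_nonneg hu.le]
    have a0 := pow_exp_le hz hu.le n
    have a1 := pow_exp_le hz hu.le (n + 1)
    have a2 := pow_exp_le hz hu.le (n + 2)
    have h2 : u ^ (n + 1) * (((n : ℝ) + 2) + ‖z‖ * u) * Real.exp (-(x * u)) * (1 + u) ≤ K * u := by
      have e : u ^ (n + 1) * (((n : ℝ) + 2) + ‖z‖ * u) * Real.exp (-(x * u)) * (1 + u) =
          (((n : ℝ) + 2) * (u ^ n * Real.exp (-(x * u))) +
          (((n : ℝ) + 2) + ‖z‖) * (u ^ (n + 1) * Real.exp (-(x * u))) +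
          ‖z‖ * (u ^ (n + 2) * Real.exp (-(x * u)))) * u := by ring
      rw [e, hK]
      refine mul_le_mul_of_nonneg_right ?_ hu.le
      gcongr
    refine h1.trans ?_
    rw [hm']
    simp only
    have h3 : u ^ (n + 1) * (((n : ℝ) + 2) + ‖z‖ * u) * Real.exp (-(x * u)) ≤ K * (u / (1 + u)) := by
      rw [← mul_div_assoc, le_div_iff₀ (by positivity)]
      exact h2
    refine h3.trans (mul_le_mul_of_nonneg_left ?_ hK0)
    rw [div_le_div_iff₀ (by positivity) (by positivity)]
    nlinarith [sq_nonneg u, mul_pos hu hu]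
  have hm'c : ∀ v : ℝ, 0 < v → ContinuousOn m' (Set.Icc 0 v) := fun v _ => by
    rw [hm']
    refine ContinuousOn.mul (by fun_prop) (ContinuousOn.div (by fun_prop) (by fun_prop) fun s hs => ?_)
    have : 0 ≤ s := hs.1
    positivity
  have hM'v : ∀ v : ℝ, 0 < v → ∫ u in Set.Ioo 0 v, m' u = M' v := by
    intro v hv
    rw [← integral_Ioc_eq_integral_Ioo, ← intervalIntegral.integral_of_le hv.le]
    have hder : ∀ u ∈ Set.uIcc 0 v, HasDerivAt (fun v : ℝ => K * (v ^ 2 / (1 + v))) (m' u) u := by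
      intro u hu
      rw [Set.uIcc_of_le hv.le] at hu
      have hu0 : 0 ≤ u := hu.1
      have h1 : HasDerivAt (fun v : ℝ => v ^ 2) (((2 : ℕ) : ℝ) * u ^ (2 - 1)) u := hasDerivAt_pow 2 u
      have h2 : HasDerivAt (fun v : ℝ => 1 + v) 1 u := (hasDerivAt_id u).const_add 1
      have h3 := (h1.fun_div h2 (show (1 : ℝ) + u ≠ 0 by positivity)).const_mul K
      refine h3.congr_deriv ?_
      simp only [hm']
      congr 1
      norm_num
      ring
    rw [intervalIntegral.integral_eq_sub_of_hasDerivAt hder]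
    · simp [hM']
    · refine ContinuousOn.intervalIntegrable ?_
      rw [Set.uIcc_of_le hv.le]
      exact hm'c v hv
  have hMvv : ∀ v : ℝ, 0 < v → ∫ u in Set.Ioo 0 v, m u = Mv v := by
    intro v hv
    rw [← integral_Ioc_eq_integral_Ioo, ← intervalIntegral.integral_of_le hv.le]
    have hder : ∀ u ∈ Set.uIcc 0 v, HasDerivAt (fun v : ℝ => (v : ℂ) ^ (n + 2) * Complex.exp (-(z * v)))
        (m u) u := by
      intro u _
      have h1 : HasDerivAt (fun w : ℂ => w ^ (n + 2)) (((n + 2 : ℕ) : ℂ) * (u : ℂ) ^ (n + 2 - 1)) (u : ℂ) :=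
        hasDerivAt_pow (n + 2) _
      have h2 : HasDerivAt (fun w : ℂ => -(z * w)) (-(z * 1)) (u : ℂ) := ((hasDerivAt_id _).const_mul z).neg
      have h3 := (h1.mul h2.cexp).comp_ofReal
      refine h3.congr_deriv ?_
      simp only [hm]
      have : n + 2 - 1 = n + 1 := by omega
      rw [this]
      push_cast
      ring
    rw [intervalIntegral.integral_eq_sub_of_hasDerivAt hder]
    · simp [hMv]
    · refine Continuous.intervalIntegrable ?_ _ _
      rw [hm]
      fun_prop
  have hq : ∀ v : ℝ, 0 < v → ru v * ((1 + v) / v ^ 2) * M' v = K * ru v := by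
    intro v hv
    simp only [hM']
    field_simp
  have key := triC (a := 0) (m := m) (g := fun v => ru v * ((1 + v) / v ^ 2)) (m' := m') (M' := M') (M := Mv)
    (by rw [hm]; fun_prop) (ru_meas.mul (by fun_prop)) hle
    (fun v hv => (hm'c v hv).integrableOn_Icc.mono_set Set.Ioo_subset_Icc_self) hM'v hMvv
    (IntegrableOn.congr_fun (ru_int.const_mul K) (fun v hv => (hq v hv).symm) measurableSet_Ioi)
  -- the right-hand side
  have hR : ∫ v in Set.Ioi (0 : ℝ), ((ru v * ((1 + v) / v ^ 2) : ℝ) : ℂ) * Mv v = IM n z + IM (n + 1) z := by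
    unfold IM Pool.Agent.W263.BSD.lapC
    rw [← integral_add]
    · refine setIntegral_congr_fun measurableSet_Ioi fun v hv => ?_
      have hv0 : (v : ℂ) ≠ 0 := by
        have : (0 : ℝ) < v := hv
        exact_mod_cast this.ne'
      simp only [hMv]
      push_cast
      field_simp
      ring
    · exact Pool.Agent.W263.BSD.LInt.complex ((measurable_id.pow_const n).mul ru_meas)
        (LInt_pow ru_meas (fun _ h => ru_LInt h) n hz)
    · exact Pool.Agent.W263.BSD.LInt.complex ((measurable_id.pow_const (n + 1)).mul ru_meas)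
        (LInt_pow ru_meas (fun _ h => ru_LInt h) (n + 1) hz)
  have hL : ∫ u in Set.Ioi (0 : ℝ), m u * ((∫ v in Set.Ioi u, ru v * ((1 + v) / v ^ 2) : ℝ) : ℂ) =
      ((n : ℂ) + 2) * BM (n + 1) z - z * BM (n + 2) z := by
    unfold BM Pool.Agent.W263.BSD.lapC
    rw [← integral_const_mul, ← integral_const_mul, ← integral_sub]
    · refine setIntegral_congr_fun measurableSet_Ioi fun u _ => ?_
      have e : (∫ v in Set.Ioi u, ru v * ((1 + v) / v ^ 2)) = kk u := rfl
      simp only [hm]
      rw [e]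
      push_cast
      ring
    · exact (Pool.Agent.W263.BSD.LInt.complex ((measurable_id.pow_const (n + 1)).mul kk_meas)
        (kk_LInt (by omega) hz)).const_mul _
    · exact (Pool.Agent.W263.BSD.LInt.complex ((measurable_id.pow_const (n + 2)).mul kk_meas)
        (kk_LInt (by omega) hz)).const_mul _
  rw [hR, hL] at key
  exact key.symm

end

end Pool.Agent.K3h56.Nic
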