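import Mathlib

/-!
# Fubini on a triangle, complex kernels

Adapted from `Pool.Agent.K3h81.RB.tri` (helper81).
-/

set_option autoImplicit false

namespace Pool.Agent.K3h56.Nic

open Filter Topology MeasureTheory

theorem triC {a : ℝ} {m : ℝ → ℂ} {g m' M' : ℝ → ℝ} {M : ℝ → ℂ} (hm : Measurable m) (hg : Measurable g)
    (hle : ∀ u, a < u → ‖m u‖ ≤ m' u) (hmi : ∀ v, a < v → IntegrableOn m' (Set.Ioo a v))
    (hM' : ∀ v, a < v → ∫ u in Set.Ioo a v, m' u = M' v)
    (hM : ∀ v, a < v → ∫ u in Set.Ioo a v, m u = M v)
    (hgM : IntegrableOn (fun v => g v * M' v) (Set.Ioi a)) :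
    ∫ u in Set.Ioi a, m u * ((∫ v in Set.Ioi u, g v : ℝ) : ℂ) = ∫ v in Set.Ioi a, (g v : ℂ) * M v := by
  set F : ℝ → ℝ → ℂ := fun u v => if a < u ∧ u < v then m u * (g v : ℂ) else 0 with hF
  have hFm : Measurable (Function.uncurry F) := by
    refine Measurable.ite ?_ ?_ measurable_const
    · exact (measurableSet_lt measurable_const measurable_fst).inter
        (measurableSet_lt measurable_fst measurable_snd)
    · exact (hm.comp measurable_fst).mul (Complex.measurable_ofReal.comp (hg.comp measurable_snd))
  have hsec : ∀ v, (fun u => F u v) = (Set.Ioo a v).indicator fun u => m u * (g v : ℂ) := by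
    intro v
    funext u
    simp only [hF, Set.indicator_apply, Set.mem_Ioo]
  have hsec2 : ∀ u, (fun v => F u v) =
      if a < u then (Set.Ioi u).indicator fun v => m u * (g v : ℂ) else 0 := by
    intro u
    funext v
    simp only [hF]
    by_cases h : a < u
    · simp only [h, true_and, if_true, Set.indicator_apply, Set.mem_Ioi]
    · simp [h]
  have hmI : ∀ v, a < v → IntegrableOn m (Set.Ioo a v) := by
    intro v hv
    refine Integrable.mono' (hmi v hv) hm.aestronglyMeasurable ?_
    filter_upwards [ae_restrict_mem measurableSet_Ioo] with u hu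
    exact hle u hu.1
  have hI1 : ∀ v, ∫ u, F u v = (Set.Ioi a).indicator (fun v => (g v : ℂ) * M v) v := by
    intro v
    rw [hsec v, integral_indicator measurableSet_Ioo, integral_mul_const]
    by_cases h : a < v
    · rw [Set.indicator_of_mem (show v ∈ Set.Ioi a from h), hM v h, mul_comm]
    · rw [Set.indicator_of_notMem (show v ∉ Set.Ioi a from h), Set.Ioo_eq_empty h]
      simp
  have hI2 : ∀ v, ‖∫ u, ‖F u v‖‖ ≤ (Set.Ioi a).indicator (fun v => ‖g v * M' v‖) v := by
    intro v
    have e : (fun u => ‖F u v‖) = (Set.Ioo a v).indicator fun u => ‖m u‖ * |g v| := by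
      funext u
      have : F u v = (Set.Ioo a v).indicator (fun u => m u * (g v : ℂ)) u := congrFun (hsec v) u
      rw [this]
      by_cases h : u ∈ Set.Ioo a v
      · rw [Set.indicator_of_mem h, Set.indicator_of_mem h, norm_mul, Complex.norm_real,
          Real.norm_eq_abs]
      · rw [Set.indicator_of_notMem h, Set.indicator_of_notMem h, norm_zero]
    rw [e, integral_indicator measurableSet_Ioo, integral_mul_const]
    by_cases h : a < v
    · have e1 : ‖|g v|‖ = ‖g v‖ := by rw [Real.norm_eq_abs, Real.norm_eq_abs, abs_abs]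
      rw [Set.indicator_of_mem (show v ∈ Set.Ioi a from h), norm_mul, norm_mul, mul_comm, e1]
      refine mul_le_mul_of_nonneg_left ?_ (norm_nonneg _)
      have h1 : ∫ u in Set.Ioo a v, ‖m u‖ ≤ M' v := by
        rw [← hM' v h]
        exact setIntegral_mono_on (hmI v h).norm (hmi v h) measurableSet_Ioo fun u hu => hle u hu.1
      have h2 : 0 ≤ ∫ u in Set.Ioo a v, ‖m u‖ := integral_nonneg fun u => norm_nonneg _
      rw [Real.norm_of_nonneg h2, Real.norm_of_nonneg (h2.trans h1)]
      exact h1
    · rw [Set.indicator_of_notMem (show v ∉ Set.Ioi a from h), Set.Ioo_eq_empty h]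
      simp
  have hint : Integrable (Function.uncurry F) (volume.prod volume) := by
    rw [integrable_prod_iff' hFm.aestronglyMeasurable]
    constructor
    · refine Eventually.of_forall fun v => ?_
      simp only [Function.uncurry]
      rw [hsec v, integrable_indicator_iff measurableSet_Ioo]
      by_cases h : a < v
      · exact (hmI v h).mul_const _
      · rw [Set.Ioo_eq_empty h]; exact integrableOn_empty
    · refine Integrable.mono' (g := (Set.Ioi a).indicator (fun v => ‖g v * M' v‖)) ?_ ?_
        (Eventually.of_forall fun v => hI2 v)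
      · rw [integrable_indicator_iff measurableSet_Ioi]
        exact hgM.norm
      · exact (hFm.norm.stronglyMeasurable.integral_prod_left').aestronglyMeasurable
  have hout : ∀ u, ∫ v, F u v =
      (Set.Ioi a).indicator (fun u => m u * ((∫ v in Set.Ioi u, g v : ℝ) : ℂ)) u := by
    intro u
    rw [hsec2 u]
    by_cases h : a < u
    · rw [Set.indicator_of_mem (show u ∈ Set.Ioi a from h), if_pos h,
        integral_indicator measurableSet_Ioi, integral_const_mul, integral_complex_ofReal]
    · rw [Set.indicator_of_notMem (show u ∉ Set.Ioi a from h), if_neg h]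
      simp
  have h1 := integral_integral_swap (f := F) hint
  simp only [hout, hI1] at h1
  rwa [integral_indicator measurableSet_Ioi, integral_indicator measurableSet_Ioi] at h1

end Pool.Agent.K3h56.Nic
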